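import Pool.Agent.X150.QE.Eig

/-! Solutions of `-w'' = lam C w + μ w'² + H` on an interval, and the radial solutions they give. -/

set_option autoImplicit false
open Set Topology MeasureTheory Filter Metric

namespace Pool.Agent.X150.QE

/-- `w` is a positive solution of `-w'' = lam C w + μ w'² + H` on `[a, b]`, with `w' = dw`. -/
structure Arc (lam a b : ℝ) (C μ H w dw : ℝ → ℝ) : Prop where
  cw : ContinuousOn w (Icc a b)
  cdw : ContinuousOn dw (Icc a b)
  pos : ∀ s ∈ Ioo a b, 0 < w s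
  ode : ∃ N : Set ℝ, N.Countable ∧ ∀ s ∈ Ioo a b, s ∉ N → HasDerivAt w (dw s) s ∧
    HasDerivAt dw (-(lam * (C s * w s) + μ s * dw s ^ 2 + H s)) s

variable {lam a b c S : ℝ} {C μ H w dw w' dw' : ℝ → ℝ}

/-- the derivative exists at every interior point -/
theorem Arc.hasDerivAt (h : Arc lam a b C μ H w dw) : ∀ s ∈ Ioo a b, HasDerivAt w (dw s) s := by
  obtain ⟨N, hN, hode⟩ := h.ode
  intro s hs
  obtain ⟨p, hp⟩ := exists_between hs.1
  obtain ⟨q, hq⟩ := exists_between hs.2
  have hsub : Icc p q ⊆ Ioo a b := fun x hx => ⟨hp.1.trans_le hx.1, hx.2.trans_lt hq.2⟩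
  have hpq : p < q := hp.2.trans hq.1
  have hF : ∀ x ∈ Icc p q, w x = w p + ∫ t in p..x, dw t := by
    intro x hx
    have h1 : ∫ t in p..x, dw t = w x - w p := by
      refine integral_eq_of_hasDerivAt_off_countable_of_le w dw hx.1 hN
        (h.cw.mono fun y hy => Ioo_subset_Icc_self (hsub ⟨hy.1, hy.2.trans hx.2⟩))
        (fun y hy => (hode y (hsub ⟨hy.1.1.le, hy.1.2.le.trans hx.2⟩) hy.2).1) ?_
      exact (h.cdw.mono fun y hy => by
        rw [uIcc_of_le hx.1] at hy
        exact Ioo_subset_Icc_self (hsub ⟨hy.1, hy.2.trans hx.2⟩)).intervalIntegrable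
    rw [h1]; ring
  have hcont : ContinuousOn dw (Icc p q) := h.cdw.mono fun y hy => Ioo_subset_Icc_self (hsub hy)
  have h2 : HasDerivAt (fun x => w p + ∫ t in p..x, dw t) (dw s) s := by
    refine HasDerivAt.const_add _ ?_
    refine intervalIntegral.integral_hasDerivAt_right ?_ ?_ ?_
    · exact (hcont.mono fun y hy => by
        rw [uIcc_of_le hp.2.le] at hy
        exact ⟨hy.1, hy.2.trans hq.1.le⟩).intervalIntegrable
    · exact hcont.stronglyMeasurableAtFilter_nhdsWithin measurableSet_Icc s |>.filter_mono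
        (by rw [nhdsWithin_eq_nhds.2 (Icc_mem_nhds hp.2 hq.1)])
    · exact hcont.continuousAt (Icc_mem_nhds hp.2 hq.1)
  refine h2.congr_of_eventuallyEq ?_
  filter_upwards [Icc_mem_nhds hp.2 hq.1] with x hx using hF x hx

theorem Arc.glue (h : Arc lam a b C μ H w dw) (h' : Arc lam b c C μ H w' dw') (hab : a ≤ b)
    (hbc : b ≤ c) (e : w b = w' b) (e' : dw b = dw' b) (hp : 0 < w b) :
    Arc lam a c C μ H (fun s => if s ≤ b then w s else w' s)
      (fun s => if s ≤ b then dw s else dw' s) := by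
  have hcont : ∀ {f g : ℝ → ℝ}, ContinuousOn f (Icc a b) → ContinuousOn g (Icc b c) → f b = g b →
      ContinuousOn (fun s => if s ≤ b then f s else g s) (Icc a c) := by
    intro f g hf hg he
    refine ContinuousOn.if ?_ ?_ ?_
    · rintro x ⟨hx, hfr⟩
      have : x = b := by
        have := frontier_Iic_subset b hfr
        simpa using this
      rw [this, he]
    · refine hf.mono ?_
      rintro x ⟨hx, hcl⟩
      have : closure {x : ℝ | x ≤ b} = {x | x ≤ b} := isClosed_Iic.closure_eq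
      rw [this] at hcl
      exact ⟨hx.1, hcl⟩
    · refine hg.mono ?_
      rintro x ⟨hx, hcl⟩
      have h1 : closure {x : ℝ | ¬ x ≤ b} ⊆ Ici b := by
        refine closure_minimal (fun y hy => ?_) isClosed_Ici
        exact (not_le.1 hy).le
      exact ⟨h1 hcl, hx.2⟩
  obtain ⟨N, hN, hode⟩ := h.ode
  obtain ⟨N', hN', hode'⟩ := h'.ode
  refine ⟨hcont h.cw h'.cw e, hcont h.cdw h'.cdw e', ?_, N ∪ N' ∪ {b},
    (hN.union hN').union (countable_singleton b), ?_⟩
  · intro s hs
    rcases lt_trichotomy s b with h1 | h1 | h1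
    · simp only [if_pos h1.le]; exact h.pos s ⟨hs.1, h1⟩
    · subst h1; simp only [le_refl, if_true]; exact hp
    · simp only [if_neg (not_le.2 h1)]; exact h'.pos s ⟨h1, hs.2⟩
  · intro s hs hsN
    have n1 : s ∉ N := fun k => hsN (Or.inl (Or.inl k))
    have n2 : s ∉ N' := fun k => hsN (Or.inl (Or.inr k))
    have n3 : s ≠ b := fun k => hsN (Or.inr k)
    rcases lt_or_gt_of_ne n3 with h1 | h1
    · have ev : ∀ {f g : ℝ → ℝ}, (fun s => if s ≤ b then f s else g s) =ᶠ[𝓝 s] f := by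
        intro f g
        filter_upwards [Iio_mem_nhds h1] with x hx
        exact if_pos (le_of_lt hx)
      obtain ⟨k1, k2⟩ := hode s ⟨hs.1, h1⟩ n1
      simp only [if_pos h1.le]
      exact ⟨k1.congr_of_eventuallyEq ev, k2.congr_of_eventuallyEq ev⟩
    · have ev : ∀ {f g : ℝ → ℝ}, (fun s => if s ≤ b then f s else g s) =ᶠ[𝓝 s] g := by
        intro f g
        filter_upwards [Ioi_mem_nhds h1] with x hx
        exact if_neg (not_le.2 hx)
      obtain ⟨k1, k2⟩ := hode' s ⟨h1, hs.2⟩ n2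
      simp only [if_neg (not_le.2 h1)]
      exact ⟨k1.congr_of_eventuallyEq ev, k2.congr_of_eventuallyEq ev⟩

theorem Arc.refl (h : Arc lam a b C μ H w dw) (hC : ∀ s, C (S - s) = C s)
    (hμ : ∀ s, μ (S - s) = μ s) (hH : ∀ s, H (S - s) = H s) :
    Arc lam (S - b) (S - a) C μ H (fun s => w (S - s)) (fun s => - dw (S - s)) := by
  have hm : ∀ s ∈ Icc (S - b) (S - a), S - s ∈ Icc a b := fun s hs =>
    ⟨by linarith [hs.2], by linarith [hs.1]⟩
  have hm' : ∀ s ∈ Ioo (S - b) (S - a), S - s ∈ Ioo a b := fun s hs =>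
    ⟨by linarith [hs.2], by linarith [hs.1]⟩
  have hsub : Continuous fun s : ℝ => S - s := by fun_prop
  obtain ⟨N, hN, hode⟩ := h.ode
  refine ⟨h.cw.comp hsub.continuousOn hm, (h.cdw.comp hsub.continuousOn hm).neg,
    fun s hs => h.pos _ (hm' s hs), (fun s => S - s) '' N, hN.image _, ?_⟩
  intro s hs hsN
  have n1 : S - s ∉ N := fun k => hsN ⟨_, k, by ring⟩
  obtain ⟨k1, k2⟩ := hode _ (hm' s hs) n1
  have k3 : HasDerivAt (fun s : ℝ => S - s) (-1) s := by
    simpa using (hasDerivAt_id s).const_sub S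
  constructor
  · have := k1.comp s k3
    simpa [Function.comp_def] using this
  · have h5 := (k2.comp s k3).neg
    rw [hC, hμ, hH] at h5
    have h6 : HasDerivAt (fun s => - dw (S - s)) _ s := h5
    refine h6.congr_deriv ?_
    ring

/-- the projection to `[0, S]` -/
def cl (S s : ℝ) : ℝ := max 0 (min S s)

theorem continuous_cl (S : ℝ) : Continuous (cl S) := by unfold cl; fun_prop

theorem cl_mem (hS : 0 < S) (s : ℝ) : cl S s ∈ Icc 0 S :=
  ⟨le_max_left _ _, max_le hS.le (min_le_left _ _)⟩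

theorem cl_self {s : ℝ} (hs : s ∈ Ioo 0 S) : cl S s = s := by
  rw [cl, min_eq_right hs.2.le, max_eq_right hs.1.le]

theorem cl_ev {s : ℝ} (hs : s ∈ Ioo 0 S) (f : ℝ → ℝ) : (fun x => f (cl S x)) =ᶠ[𝓝 s] f := by
  filter_upwards [isOpen_Ioo.mem_nhds hs] with x hx
  rw [cl_self hx]

theorem cont_cl (hS : 0 < S) {f : ℝ → ℝ} (hf : ContinuousOn f (Icc 0 S)) :
    Continuous fun s => f (cl S s) :=
  hf.comp_continuous (continuous_cl S) (cl_mem hS)

/-- the radial solution -/
noncomputable def rsol (S : ℝ) (w : ℝ → ℝ) : ℂ → ℝ := rf fun s => w (cl S s)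

theorem bdd_of_continuous {f : ℝ → ℝ} (hf : Continuous f) :
    ∃ K, ∀ s ∈ Icc 0 S, |f s| ≤ K := by
  obtain ⟨K, hK⟩ := (isCompact_Icc (a := (0 : ℝ)) (b := S)).exists_bound_of_continuousOn
    hf.continuousOn
  exact ⟨K, fun s hs => by rw [← Real.norm_eq_abs]; exact hK s hs⟩

theorem Arc.isSol (hS : 0 < S) (h : Arc lam 0 S C μ H w dw) (w0 : w 0 = 0) (wS : w S = 0)
    (mC : Measurable C) (mμ : Measurable μ) (mH : Measurable H) {B : ℝ}
    (bC : ∀ s, |C s| ≤ B) (bμ : ∀ s, |μ s| ≤ B) (bH : ∀ s, |H s| ≤ B) :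
    IsSol (ann (Real.exp S)) lam (rw2 C) (rf μ) (rw2 H) (rsol S w) := by
  have cw := cont_cl hS h.cw
  have cdw := cont_cl hS h.cdw
  have hB : 0 ≤ B := (abs_nonneg _).trans (bC 0)
  obtain ⟨Kw, hKw⟩ := bdd_of_continuous (S := S) cw
  obtain ⟨Kd, hKd⟩ := bdd_of_continuous (S := S) cdw
  obtain ⟨N, hN, hode⟩ := h.ode
  have hd : ∀ s ∈ Ioo 0 S, HasDerivAt (fun s => w (cl S s)) (dw (cl S s)) s := by
    intro s hs
    rw [cl_self hs]
    exact (h.hasDerivAt s hs).congr_of_eventuallyEq (cl_ev hs w)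
  have hpos : ∀ s ∈ Ioo 0 S, 0 < w (cl S s) := fun s hs => by rw [cl_self hs]; exact h.pos s hs
  have hu : InH10 (ann (Real.exp S)) (rsol S w) (rg fun s => dw (cl S s)) := by
    refine inH10_rf cw cdw hd (fun s hs => ?_) (fun s hs => ?_) hpos
    · rw [cl, min_eq_right (hs.trans hS.le), max_eq_left hs, w0]
    · rw [cl, min_eq_left hs, max_eq_right hS.le, wS]
  refine ⟨⟨Kw, (ae_restrict_mem (measurableSet_ann _)).mono fun z hz =>
    hKw _ (Ioo_subset_Icc_self (log_mem hz))⟩, _, hu, fun v gv hv hvb => ?_⟩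
  have m1 : Measurable fun s => C s * w (cl S s) := mC.mul cw.measurable
  have m2 : Measurable fun s => μ s * dw (cl S s) ^ 2 := mμ.mul (cdw.measurable.pow_const 2)
  have b1 : ∀ s ∈ Icc 0 S, |C s * w (cl S s)| ≤ B * Kw := fun s hs => by
    rw [abs_mul]; exact mul_le_mul (bC s) (hKw s hs) (abs_nonneg _) hB
  have b2 : ∀ s ∈ Icc 0 S, |μ s * dw (cl S s) ^ 2| ≤ B * Kd ^ 2 := fun s hs => by
    rw [abs_mul, abs_pow]
    exact mul_le_mul (bμ s) (pow_le_pow_left₀ (abs_nonneg _) (hKd s hs) 2) (by positivity) hB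
  have hm : Measurable fun s => -(lam * (C s * w (cl S s)) + μ s * dw (cl S s) ^ 2 + H s) :=
    (((m1.const_mul lam).add m2).add mH).neg
  have hb : ∀ s ∈ Icc 0 S, |-(lam * (C s * w (cl S s)) + μ s * dw (cl S s) ^ 2 + H s)| ≤
      |lam| * (B * Kw) + B * Kd ^ 2 + B := fun s hs => by
    rw [abs_neg]
    refine (abs_add_le _ _).trans (add_le_add ((abs_add_le _ _).trans (add_le_add ?_ (b2 s hs)))
      (bH s))
    rw [abs_mul]
    exact mul_le_mul_of_nonneg_left (b1 s hs) (abs_nonneg _)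
  have hdd : ∀ s ∈ Ioo 0 S, s ∉ N → HasDerivAt (fun s => dw (cl S s))
      (-(lam * (C s * w (cl S s)) + μ s * dw (cl S s) ^ 2 + H s)) s := by
    intro s hs hsN
    rw [cl_self hs]
    exact (hode s hs hsN).2.congr_of_eventuallyEq (cl_ev hs dw)
  rw [weak_H10 hS hN cdw hm hb hdd hv, ← integral_neg]
  have mem1 : MemLp (rw2 fun s => C s * w (cl S s)) 2 (volume.restrict (ann (Real.exp S))) :=
    memLp_rw2 m1 fun s hs => b1 s (Ioo_subset_Icc_self hs)
  have mem2 : MemLp (rw2 fun s => μ s * dw (cl S s) ^ 2) 2 (volume.restrict (ann (Real.exp S))) :=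
    memLp_rw2 m2 fun s hs => b2 s (Ioo_subset_Icc_self hs)
  have mem3 : MemLp (rw2 H) 2 (volume.restrict (ann (Real.exp S))) :=
    memLp_rw2 mH fun s _ => bH s
  have e1 : ∫ z in ann (Real.exp S), rw2 C z * rsol S w z * v z =
      ∫ z in ann (Real.exp S), inner ℝ (rw2 (fun s => C s * w (cl S s)) z) (v z) := by
    refine setIntegral_congr_fun (measurableSet_ann _) fun z hz => ?_
    simp only [Real.inner_apply, rw2, rsol, rf]
    ring
  have e2 : ∫ z in ann (Real.exp S), rf μ z * ‖rg (fun s => dw (cl S s)) z‖ ^ 2 * v z =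
      ∫ z in ann (Real.exp S), inner ℝ (rw2 (fun s => μ s * dw (cl S s) ^ 2) z) (v z) := by
    refine setIntegral_congr_fun (measurableSet_ann _) fun z hz => ?_
    simp only [Real.inner_apply]
    rw [norm_rg hz.1, div_pow, sq_abs]
    simp only [rw2, rf]
    ring
  have e3 : ∫ z in ann (Real.exp S), rw2 H z * v z =
      ∫ z in ann (Real.exp S), inner ℝ (rw2 H z) (v z) := by
    simp only [Real.inner_apply]
  rw [e1, e2, e3, ← integral_const_mul, ← integral_add, ← integral_add]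
  · refine integral_congr_ae (ae_of_all _ fun z => ?_)
    simp only [Real.inner_apply, rw2]
    ring
  · exact ((integrable_inner2 mem1 hv.1).const_mul lam).add (integrable_inner2 mem2 hv.1)
  · exact integrable_inner2 mem3 hv.1
  · exact (integrable_inner2 mem1 hv.1).const_mul lam
  · exact integrable_inner2 mem2 hv.1

end Pool.Agent.X150.QE
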