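import Pool.Agent.X150.QE.Arc

/-! The coefficients of the example. -/

set_option autoImplicit false
open Set Topology MeasureTheory Filter Metric

namespace Pool.Agent.X150.QE

/-- `ln 2` -/
noncomputable def LL : ℝ := Real.log 2
/-- end of the first zone -/
noncomputable def s1 : ℝ := Real.pi / (4 * LL)
/-- end of the second zone -/
noncomputable def s2 : ℝ := s1 + 1
/-- the midpoint -/
noncomputable def mm : ℝ := s2 + 8 / LL
/-- the length -/
noncomputable def SS : ℝ := 2 * mm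

theorem LL_gt : 0.693 < LL := by unfold LL; linarith [Real.log_two_gt_d9]
theorem LL_lt : LL < 0.694 := by unfold LL; linarith [Real.log_two_lt_d9]
theorem LL_pos : 0 < LL := by linarith [LL_gt]

theorem s1_pos : 0 < s1 := div_pos Real.pi_pos (by linarith [LL_pos])
theorem s1_lt : s1 < 1.15 := by
  unfold s1
  rw [div_lt_iff₀ (by linarith [LL_pos])]
  nlinarith [LL_gt, Real.pi_lt_d2]
theorem LL_s1 : LL * s1 = Real.pi / 4 := by
  unfold s1
  have := LL_pos
  field_simp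
theorem s12 : s1 < s2 := by unfold s2; linarith
theorem s2m : s2 < mm := by
  have : 0 < 8 / LL := div_pos (by norm_num) LL_pos
  unfold mm; linarith
theorem mm_pos : 0 < mm := by linarith [s1_pos, s12, s2m]
theorem mS : mm < SS := by unfold SS; linarith [mm_pos]
theorem SS_pos : 0 < SS := by linarith [mm_pos, mS]

/-- numerator of `c` -/
noncomputable def NC (t : ℝ) : ℝ := 27 / 2048 + 15 / 64 * (t * (1 - t))
/-- numerator of `μ` -/
noncomputable def NM (t : ℝ) : ℝ := 1 / 2 - 21 / 128 * t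
/-- `U` -/
noncomputable def PU (t : ℝ) : ℝ := 4 + 15 / 16 * t - 1 / 2 * t ^ 2
/-- `U'` -/
noncomputable def DU (t : ℝ) : ℝ := 15 / 16 - t
/-- `V` -/
noncomputable def PV (t : ℝ) : ℝ := 2 + 3 / 4 * t - 5 / 16 * t ^ 2
/-- `V'` -/
noncomputable def DV (t : ℝ) : ℝ := 3 / 4 - 5 / 8 * t
/-- the determinant -/
noncomputable def WD (t : ℝ) : ℝ := PU t * DV t ^ 2 - PV t * DU t ^ 2

theorem bern {t : ℝ} (h : t ∈ Icc (0 : ℝ) 1) :
    0 ≤ (1 - t) ^ 4 ∧ 0 ≤ t * (1 - t) ^ 3 ∧ 0 ≤ t ^ 2 * (1 - t) ^ 2 ∧ 0 ≤ t ^ 3 * (1 - t) ∧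
      0 ≤ t ^ 4 := by
  have h0 := h.1
  have h1 : 0 ≤ 1 - t := by linarith [h.2]
  refine ⟨by positivity, by positivity, by positivity, by positivity, by positivity⟩

theorem bern_sum (t : ℝ) : (1 - t) ^ 4 + 4 * (t * (1 - t) ^ 3) + 6 * (t ^ 2 * (1 - t) ^ 2) +
    4 * (t ^ 3 * (1 - t)) + t ^ 4 = 1 := by ring

theorem WD_ge {t : ℝ} (h : t ∈ Icc (0 : ℝ) 1) : 1 / 20 ≤ WD t := by
  obtain ⟨a, b, c, d, e⟩ := bern h
  unfold WD PU DV PV DU
  nlinarith [a, b, c, d, e, bern_sum t]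

theorem WD_pos {t : ℝ} (h : t ∈ Icc (0 : ℝ) 1) : 0 < WD t := by linarith [WD_ge h]

theorem NC_pos {t : ℝ} (h : t ∈ Icc (0 : ℝ) 1) : 0 < NC t := by
  have : 0 ≤ t * (1 - t) := mul_nonneg h.1 (by linarith [h.2])
  unfold NC; linarith

theorem NC_le {t : ℝ} (h : t ∈ Icc (0 : ℝ) 1) : NC t ≤ 1 / 4 * WD t := by
  obtain ⟨a, b, c, d, e⟩ := bern h
  unfold NC WD PU DV PV DU
  nlinarith [a, b, c, d, e, bern_sum t]

theorem NM_le {t : ℝ} (h : t ∈ Icc (0 : ℝ) 1) : NM t ≤ 6 * WD t := by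
  obtain ⟨a, b, c, d, e⟩ := bern h
  unfold NM WD PU DV PV DU
  nlinarith [a, b, c, d, e, bern_sum t]

theorem le_NM {t : ℝ} (h : t ∈ Icc (0 : ℝ) 1) : 1 / 4 * WD t ≤ NM t := by
  obtain ⟨a, b, c, d, e⟩ := bern h
  unfold NM WD PU DV PV DU
  nlinarith [a, b, c, d, e, bern_sum t]

theorem id_U (t : ℝ) : NC t * PU t + NM t * DU t ^ 2 = WD t := by
  unfold NC NM WD PU DV PV DU; ring

theorem id_V (t : ℝ) : NC t * PV t + NM t * DV t ^ 2 = 5 / 8 * WD t := by
  unfold NC NM WD PU DV PV DU; ring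

/-- `C` on the second zone -/
noncomputable def CII (t : ℝ) : ℝ := NC t / WD t
/-- `μ` on the second zone -/
noncomputable def MII (t : ℝ) : ℝ := NM t / WD t

theorem CII_pos {t : ℝ} (h : t ∈ Icc (0 : ℝ) 1) : 0 < CII t := div_pos (NC_pos h) (WD_pos h)
theorem CII_le {t : ℝ} (h : t ∈ Icc (0 : ℝ) 1) : CII t ≤ 1 / 4 := by
  unfold CII; rw [div_le_iff₀ (WD_pos h)]; exact NC_le h
theorem MII_le {t : ℝ} (h : t ∈ Icc (0 : ℝ) 1) : MII t ≤ 6 := by
  unfold MII; rw [div_le_iff₀ (WD_pos h)]; exact NM_le h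
theorem le_MII {t : ℝ} (h : t ∈ Icc (0 : ℝ) 1) : 1 / 4 ≤ MII t := by
  unfold MII; rw [le_div_iff₀ (WD_pos h)]; exact le_NM h

theorem eq_U {t : ℝ} (h : t ∈ Icc (0 : ℝ) 1) : CII t * PU t + MII t * DU t ^ 2 = 1 := by
  have h1 := WD_pos h
  have h2 := id_U t
  unfold CII MII
  field_simp
  linarith

theorem eq_V {t : ℝ} (h : t ∈ Icc (0 : ℝ) 1) : CII t * PV t + MII t * DV t ^ 2 = 5 / 8 := by
  have h1 := WD_pos h
  have h2 := id_V t
  unfold CII MII
  field_simp
  linarith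

/-- the fold -/
noncomputable def fold (s : ℝ) : ℝ := min s (SS - s)

theorem fold_symm (s : ℝ) : fold (SS - s) = fold s := by
  unfold fold; rw [sub_sub_cancel, min_comm]

theorem fold_left {s : ℝ} (h : s ≤ mm) : fold s = s := by
  unfold fold SS; exact min_eq_left (by linarith)

/-- the coefficient `C` -/
noncomputable def CC (s : ℝ) : ℝ :=
  if fold s ≤ s1 then 0 else if fold s ≤ s2 then CII (fold s - s1) else 0
/-- the coefficient `μ` -/
noncomputable def MM (s : ℝ) : ℝ :=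
  if fold s ≤ s1 then LL else if fold s ≤ s2 then MII (fold s - s1) else LL / 2
/-- the coefficient `H` -/
noncomputable def HH (s : ℝ) : ℝ :=
  if fold s ≤ s1 then LL else if fold s ≤ s2 then -(CII (fold s - s1) / 2) else 0

theorem CC_symm (s : ℝ) : CC (SS - s) = CC s := by unfold CC; rw [fold_symm]
theorem MM_symm (s : ℝ) : MM (SS - s) = MM s := by unfold MM; rw [fold_symm]
theorem HH_symm (s : ℝ) : HH (SS - s) = HH s := by unfold HH; rw [fold_symm]

theorem measurable_fold : Measurable fold := by unfold fold; fun_prop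

theorem measurable_ite3 {f : ℝ → ℝ} (hf : Measurable f) (a b : ℝ) :
    Measurable fun s => if fold s ≤ s1 then a else if fold s ≤ s2 then f (fold s - s1) else b := by
  refine Measurable.ite (measurableSet_le measurable_fold measurable_const) measurable_const ?_
  refine Measurable.ite (measurableSet_le measurable_fold measurable_const) ?_ measurable_const
  exact hf.comp (measurable_fold.sub_const _)

theorem measurable_CII : Measurable CII := by
  unfold CII NC WD PU DV PV DU; fun_prop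
theorem measurable_MII : Measurable MII := by
  unfold MII NM WD PU DV PV DU; fun_prop

theorem measurable_CC : Measurable CC := measurable_ite3 measurable_CII _ _
theorem measurable_MM : Measurable MM := measurable_ite3 measurable_MII _ _
theorem measurable_HH : Measurable HH :=
  measurable_ite3 (f := fun t => -(CII t / 2)) (measurable_CII.div_const 2).neg _ _

theorem zone2 {x : ℝ} (h : ¬ x ≤ s1) (h' : x ≤ s2) : x - s1 ∈ Icc (0 : ℝ) 1 :=
  ⟨by linarith [not_le.1 h], by unfold s2 at h'; linarith⟩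

theorem CC_nonneg (s : ℝ) : 0 ≤ CC s := by
  unfold CC
  split_ifs with h1 h2
  · exact le_rfl
  · exact (CII_pos (zone2 h1 h2)).le
  · exact le_rfl
theorem CC_le (s : ℝ) : CC s ≤ 1 / 4 := by
  unfold CC
  split_ifs with h1 h2
  · norm_num
  · exact CII_le (zone2 h1 h2)
  · norm_num
theorem MM_le (s : ℝ) : MM s ≤ 6 := by
  unfold MM
  split_ifs with h1 h2
  · linarith [LL_lt]
  · exact MII_le (zone2 h1 h2)
  · linarith [LL_lt]
theorem le_MM (s : ℝ) : 1 / 4 ≤ MM s := by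
  unfold MM
  split_ifs with h1 h2
  · linarith [LL_gt]
  · exact le_MII (zone2 h1 h2)
  · linarith [LL_gt]
theorem abs_HH (s : ℝ) : |HH s| ≤ 6 := by
  unfold HH
  split_ifs with h1 h2
  · rw [abs_of_pos LL_pos]; linarith [LL_lt]
  · rw [abs_neg, abs_of_pos (half_pos (CII_pos (zone2 h1 h2)))]
    linarith [CII_le (zone2 h1 h2)]
  · rw [abs_zero]; norm_num
theorem abs_CC (s : ℝ) : |CC s| ≤ 6 := by
  rw [abs_of_nonneg (CC_nonneg s)]; linarith [CC_le s]
theorem abs_MM (s : ℝ) : |MM s| ≤ 6 := by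
  rw [abs_of_nonneg (by linarith [le_MM s])]; exact MM_le s

theorem zI {s : ℝ} (h : s ∈ Ioo 0 s1) : CC s = 0 ∧ MM s = LL ∧ HH s = LL := by
  have h1 : fold s = s := fold_left (by linarith [h.2, s12, s2m])
  unfold CC MM HH
  rw [h1, if_pos h.2.le, if_pos h.2.le, if_pos h.2.le]
  exact ⟨rfl, rfl, rfl⟩

theorem zII {s : ℝ} (h : s ∈ Ioo s1 s2) :
    CC s = CII (s - s1) ∧ MM s = MII (s - s1) ∧ HH s = -(CII (s - s1) / 2) := by
  have h1 : fold s = s := fold_left (by linarith [h.2, s12, s2m])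
  unfold CC MM HH
  rw [h1, if_neg (not_le.2 h.1), if_neg (not_le.2 h.1), if_neg (not_le.2 h.1), if_pos h.2.le,
    if_pos h.2.le, if_pos h.2.le]
  exact ⟨rfl, rfl, rfl⟩

theorem zIII {s : ℝ} (h : s ∈ Ioo s2 mm) : CC s = 0 ∧ MM s = LL / 2 ∧ HH s = 0 := by
  have h1 : fold s = s := fold_left h.2.le
  have h2 : ¬ s ≤ s1 := not_le.2 (by linarith [h.1, s12])
  unfold CC MM HH
  rw [h1, if_neg h2, if_neg h2, if_neg h2, if_neg (not_le.2 h.1), if_neg (not_le.2 h.1),
    if_neg (not_le.2 h.1)]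
  exact ⟨rfl, rfl, rfl⟩

end Pool.Agent.X150.QE
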