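import Mathlib

/-! `H¹₀`, weak solutions of `-Δu = λ c u + μ |∇u|² + h`, and the first eigenvalue. -/

set_option autoImplicit false
open Set Topology MeasureTheory Filter Metric

namespace Pool.Agent.X150.QE

/-- The annulus `1 < |z| < R` in the plane `ℝ² = ℂ`. -/
def ann (R : ℝ) : Set ℂ := {z | 1 < ‖z‖ ∧ ‖z‖ < R}

/-- `φ` is a `C¹` function with compact support in `Ω`. -/
def IsTest (Ω : Set ℂ) (φ : ℂ → ℝ) : Prop :=
  ContDiff ℝ 1 φ ∧ HasCompactSupport φ ∧ tsupport φ ⊆ Ω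

/-- `u` belongs to `H¹₀(Ω)` and has the weak gradient `g`: `u` and `g` are square integrable on `Ω`
and are the `L²` limits of `φₙ` and `∇φₙ` for `C¹` functions `φₙ` with compact support in `Ω`. -/
def InH10 (Ω : Set ℂ) (u : ℂ → ℝ) (g : ℂ → ℂ) : Prop :=
  MemLp u 2 (volume.restrict Ω) ∧ MemLp g 2 (volume.restrict Ω) ∧
    ∃ φ : ℕ → ℂ → ℝ, (∀ n, IsTest Ω (φ n)) ∧
      Tendsto (fun n => eLpNorm (φ n - u) 2 (volume.restrict Ω)) atTop (𝓝 0) ∧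
      Tendsto (fun n => eLpNorm (gradient (φ n) - g) 2 (volume.restrict Ω)) atTop (𝓝 0)

/-- `u` is essentially bounded on `Ω`. -/
def EssBdd (Ω : Set ℂ) (u : ℂ → ℝ) : Prop := ∃ K : ℝ, ∀ᵐ z ∂(volume.restrict Ω), |u z| ≤ K

/-- `u ∈ H¹₀(Ω) ∩ L^∞(Ω)` is a weak solution of `-Δu = λ c u + μ |∇u|² + h` in `Ω`. -/
def IsSol (Ω : Set ℂ) (lam : ℝ) (c μ h : ℂ → ℝ) (u : ℂ → ℝ) : Prop :=
  EssBdd Ω u ∧ ∃ g, InH10 Ω u g ∧ ∀ v gv, InH10 Ω v gv → EssBdd Ω v →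
    ∫ z in Ω, inner ℝ (g z) (gv z) =
      lam * (∫ z in Ω, c z * u z * v z) + (∫ z in Ω, μ z * ‖g z‖ ^ 2 * v z) +
        ∫ z in Ω, h z * v z

end Pool.Agent.X150.QE
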