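import Pool.Agent.X150.QE.Member

/-! The first eigenvalue of `-Δφ = γ c φ` is bounded below by a supersolution. -/

set_option autoImplicit false
open Set Topology MeasureTheory Filter Metric

namespace Pool.Agent.X150.QE

variable {S : ℝ} {w dw : ℝ → ℝ}

theorem continuousOn_rg (hdc : Continuous dw) : ContinuousOn (rg dw) (ann (Real.exp S)) := by
  unfold rg
  have hne : ∀ y ∈ ann (Real.exp S), ‖y‖ ≠ 0 := fun y hy => by
    have := hy.1; positivity
  have hlog : ContinuousOn (fun y : ℂ => Real.log ‖y‖) (ann (Real.exp S)) :=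
    Real.continuousOn_log.comp continuous_norm.continuousOn fun y hy => hne y hy
  exact ((hdc.comp_continuousOn hlog).div (continuous_norm.pow 2).continuousOn
    fun y hy => pow_ne_zero 2 (hne y hy)).smul continuousOn_id

theorem contDiffAt_rf (hdc : Continuous dw) (hd : ∀ s ∈ Ioo 0 S, HasDerivAt w (dw s) s) {z : ℂ}
    (hz : z ∈ ann (Real.exp S)) : ContDiffAt ℝ 1 (rf w) z := by
  rw [contDiffAt_one_iff]
  refine ⟨fun z => InnerProductSpace.toDual ℝ ℂ (rg dw z), ann (Real.exp S),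
    (isOpen_ann _).mem_nhds hz, ?_, fun y hy => hasFDerivAt_rf hy (hd _ (log_mem hy))⟩
  exact (InnerProductSpace.toDual ℝ ℂ).continuous.comp_continuousOn (continuousOn_rg hdc)

/-- Picone's test function -/
noncomputable def pic (φ : ℂ → ℝ) (w : ℝ → ℝ) (z : ℂ) : ℝ := φ z ^ 2 / rf w z

theorem test_pic (hdc : Continuous dw) (hd : ∀ s ∈ Ioo 0 S, HasDerivAt w (dw s) s)
    (hpos : ∀ s ∈ Ioo 0 S, 0 < w s) {φ : ℂ → ℝ} (hφ : IsTest (ann (Real.exp S)) φ) :
    IsTest (ann (Real.exp S)) (pic φ w) := by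
  have hsub : tsupport (pic φ w) ⊆ tsupport φ := by
    refine closure_mono fun z hz => ?_
    intro h
    apply hz
    simp [pic, h]
  refine ⟨?_, hφ.2.1.of_isClosed_subset (isClosed_tsupport _) hsub, hsub.trans hφ.2.2⟩
  rw [contDiff_iff_contDiffAt]
  intro z
  by_cases hz : z ∈ ann (Real.exp S)
  · exact (hφ.1.contDiffAt.pow 2).div (contDiffAt_rf hdc hd hz) (hpos _ (log_mem hz)).ne'
  · have h1 : z ∉ tsupport φ := fun h => hz (hφ.2.2 h)
    have h2 : φ =ᶠ[𝓝 z] 0 := notMem_tsupport_iff_eventuallyEq.1 h1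
    have h3 : pic φ w =ᶠ[𝓝 z] fun _ => 0 := by
      filter_upwards [h2] with y hy
      simp [pic, hy]
    exact contDiffAt_const.congr_of_eventuallyEq h3

theorem picone (hd : ∀ s ∈ Ioo 0 S, HasDerivAt w (dw s) s)
    (hpos : ∀ s ∈ Ioo 0 S, 0 < w s) {φ : ℂ → ℝ} (hφ : IsTest (ann (Real.exp S)) φ) {z : ℂ}
    (hz : z ∈ ann (Real.exp S)) :
    inner ℝ (rg dw z) (gradient (pic φ w) z) ≤ inner ℝ (gradient φ z) (gradient φ z) := by
  have hp : 0 < rf w z := hpos _ (log_mem hz)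
  have h1 : HasFDerivAt φ (fderiv ℝ φ z) z := (hφ.1.differentiable one_ne_zero z).hasFDerivAt
  have h2 := hasFDerivAt_rf hz (hd _ (log_mem hz))
  have h3 := (hasDerivAt_inv hp.ne').comp_hasFDerivAt z h2
  have h4 : HasFDerivAt (pic φ w) _ z := (h1.pow 2).mul h3
  have e3 : fderiv ℝ (pic φ w) z (rg dw z) = 2 * (φ z / rf w z) * fderiv ℝ φ z (rg dw z) -
      (φ z / rf w z) ^ 2 * inner ℝ (rg dw z) (rg dw z) := by
    rw [h4.fderiv]
    simp only [add_apply, smul_apply, InnerProductSpace.toDual_apply_apply, smul_eq_mul,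
      nsmul_eq_mul]
    field_simp
    ring
  rw [real_inner_comm (gradient (pic φ w) z), inner_gradient_left, e3, ← inner_gradient_left]
  have h5 : 0 ≤ inner ℝ (gradient φ z - (φ z / rf w z) • rg dw z)
    (gradient φ z - (φ z / rf w z) • rg dw z) := real_inner_self_nonneg
  rw [inner_sub_left, inner_sub_right, inner_sub_right, inner_smul_left, inner_smul_right,
    inner_smul_left, inner_smul_right, real_inner_comm (gradient φ z) (rg dw z)] at h5
  simp only [conj_trivial] at h5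
  nlinarith [h5]

variable {N : Set ℝ} {ddw C : ℝ → ℝ}

theorem memLp_mul {K : ℝ} (hm : Measurable C) (hb : ∀ s ∈ Ioo 0 S, |C s| ≤ K) {v : ℂ → ℝ}
    (hv : MemLp v 2 (volume.restrict (ann (Real.exp S)))) :
    MemLp (fun z => rw2 C z * v z) 2 (volume.restrict (ann (Real.exp S))) := by
  refine hv.of_le_mul (c := K) ((measurable_rw2 hm).aestronglyMeasurable.mul hv.1) ?_
  refine (ae_restrict_mem (measurableSet_ann _)).mono fun z hz => ?_
  rw [norm_mul]
  refine mul_le_mul_of_nonneg_right ?_ (norm_nonneg _)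
  rw [Real.norm_eq_abs]
  exact (abs_rw2 hz.1).trans (hb _ (log_mem hz))

theorem eig_test {K K' γ : ℝ} (hS : 0 < S) (hN : N.Countable) (hdc : Continuous dw)
    (hm : Measurable ddw) (hb : ∀ s ∈ Icc 0 S, |ddw s| ≤ K)
    (hd : ∀ s ∈ Ioo 0 S, HasDerivAt w (dw s) s)
    (hdd : ∀ s ∈ Ioo 0 S, s ∉ N → HasDerivAt dw (ddw s) s) (hpos : ∀ s ∈ Ioo 0 S, 0 < w s)
    (hCm : Measurable C) (hCb : ∀ s ∈ Ioo 0 S, |C s| ≤ K')
    (hγ : ∀ s ∈ Ioo 0 S, γ * (C s * w s) ≤ - ddw s) {φ : ℂ → ℝ}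
    (hφ : IsTest (ann (Real.exp S)) φ) :
    γ * ∫ z in ann (Real.exp S), inner ℝ (rw2 C z * φ z) (φ z) ≤
      ∫ z in ann (Real.exp S), inner ℝ (gradient φ z) (gradient φ z) := by
  have hp := test_pic hdc hd hpos hφ
  have h1 := weak_test hS hN hdc hm hb hdd hp
  have i1 : Integrable (fun z => inner ℝ (rw2 C z * φ z) (φ z))
      (volume.restrict (ann (Real.exp S))) :=
    integrable_inner2 (memLp_mul hCm hCb (memLp_test hφ)) (memLp_test hφ)
  have i2 : Integrable (fun z => inner ℝ (rw2 ddw z) (pic φ w z))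
      (volume.restrict (ann (Real.exp S))) :=
    integrable_inner2 (memLp_rw2 hm (fun s hs => hb s (Ioo_subset_Icc_self hs))) (memLp_test hp)
  have i3 : Integrable (fun z => inner ℝ (rg dw z) (gradient (pic φ w) z))
      (volume.restrict (ann (Real.exp S))) := integrable_inner2 (memLp_rg hdc) (memLp_grad hp)
  have i4 : Integrable (fun z => inner ℝ (gradient φ z) (gradient φ z))
      (volume.restrict (ann (Real.exp S))) := integrable_inner2 (memLp_grad hφ) (memLp_grad hφ)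
  have h2 : γ * ∫ z in ann (Real.exp S), inner ℝ (rw2 C z * φ z) (φ z) ≤
      - ∫ z in ann (Real.exp S), inner ℝ (rw2 ddw z) (pic φ w z) := by
    rw [← integral_const_mul, ← integral_neg]
    refine setIntegral_mono_on (i1.const_mul γ) i2.neg (measurableSet_ann _) fun z hz => ?_
    have h0 : 0 < ‖z‖ := by linarith [hz.1]
    have hp0 : 0 < w (Real.log ‖z‖) := hpos _ (log_mem hz)
    have h3 := hγ _ (log_mem hz)
    simp only [pic, rw2, rf, Real.inner_apply]
    have h4 : 0 ≤ φ z ^ 2 / w (Real.log ‖z‖) / ‖z‖ ^ 2 := by positivity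
    have h5 := mul_le_mul_of_nonneg_right h3 h4
    have e1 : γ * (C (Real.log ‖z‖) / ‖z‖ ^ 2 * φ z * φ z) =
        γ * (C (Real.log ‖z‖) * w (Real.log ‖z‖)) * (φ z ^ 2 / w (Real.log ‖z‖) / ‖z‖ ^ 2) := by
      field_simp
    have e2 : -(ddw (Real.log ‖z‖) / ‖z‖ ^ 2 * (φ z ^ 2 / w (Real.log ‖z‖))) =
        -ddw (Real.log ‖z‖) * (φ z ^ 2 / w (Real.log ‖z‖) / ‖z‖ ^ 2) := by
      field_simp
    rw [e1, e2]
    exact h5
  rw [← h1] at h2
  refine h2.trans ?_
  exact setIntegral_mono_on i3 i4 (measurableSet_ann _) fun z hz => picone hd hpos hφ hz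

theorem eig_H10 {K K' γ : ℝ} (hS : 0 < S) (hN : N.Countable) (hdc : Continuous dw)
    (hm : Measurable ddw) (hb : ∀ s ∈ Icc 0 S, |ddw s| ≤ K)
    (hd : ∀ s ∈ Ioo 0 S, HasDerivAt w (dw s) s)
    (hdd : ∀ s ∈ Ioo 0 S, s ∉ N → HasDerivAt dw (ddw s) s) (hpos : ∀ s ∈ Ioo 0 S, 0 < w s)
    (hCm : Measurable C) (hCb : ∀ s ∈ Ioo 0 S, |C s| ≤ K')
    (hγ : ∀ s ∈ Ioo 0 S, γ * (C s * w s) ≤ - ddw s) {v : ℂ → ℝ} {gv : ℂ → ℂ}
    (hv : InH10 (ann (Real.exp S)) v gv) :
    γ * ∫ z in ann (Real.exp S), rw2 C z * v z ^ 2 ≤ ∫ z in ann (Real.exp S), ‖gv z‖ ^ 2 := by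
  obtain ⟨h1, h2, φ, hφ, h3, h4⟩ := hv
  have k1 : Tendsto (fun n => eLpNorm ((fun z => rw2 C z * φ n z) - fun z => rw2 C z * v z) 2
      (volume.restrict (ann (Real.exp S)))) atTop (𝓝 0) := by
    have h5 := ENNReal.Tendsto.const_mul (a := ENNReal.ofReal K') h3 (Or.inr ENNReal.ofReal_ne_top)
    rw [mul_zero] at h5
    refine tendsto_of_tendsto_of_tendsto_of_le_of_le tendsto_const_nhds h5 (fun _ => zero_le)
      fun n => ?_
    refine eLpNorm_le_mul_eLpNorm_of_ae_le_mul ?_ _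
    refine (ae_restrict_mem (measurableSet_ann _)).mono fun z hz => ?_
    simp only [Pi.sub_apply]
    rw [← mul_sub, norm_mul]
    refine mul_le_mul_of_nonneg_right ?_ (norm_nonneg _)
    rw [Real.norm_eq_abs]
    exact (abs_rw2 hz.1).trans (hCb _ (log_mem hz))
  have k2 := tendsto_inner_L2 (memLp_mul hCm hCb h1) h1
    (fun n => memLp_mul hCm hCb (memLp_test (hφ n))) (fun n => memLp_test (hφ n)) k1 h3
  have k3 := tendsto_inner_L2 h2 h2 (fun n => memLp_grad (hφ n)) (fun n => memLp_grad (hφ n)) h4 h4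
  have k4 := le_of_tendsto_of_tendsto' (k2.const_mul γ) k3 fun n =>
    eig_test hS hN hdc hm hb hd hdd hpos hCm hCb hγ (hφ n)
  have e1 : ∀ z, inner ℝ (rw2 C z * v z) (v z) = rw2 C z * v z ^ 2 := fun z => by
    simp only [Real.inner_apply]; ring
  have e2 : ∀ z, inner ℝ (gv z) (gv z) = ‖gv z‖ ^ 2 := fun z => real_inner_self_eq_norm_sq _
  simp only [e1, e2] at k4
  exact k4

end Pool.Agent.X150.QE
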