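import Pool.Agent.X150.QE.Defs

/-! The hypotheses (A), (H1) and `λ < γ₁`. -/

set_option autoImplicit false
open Set Topology MeasureTheory Filter Metric

namespace Pool.Agent.X150.QE

/-- Assumption (A) on the coefficients: `c, μ, h` are measurable, `c` and `h` are bounded on `Ω`
(hence in every `L^p(Ω)`), `c ≥ 0`, `c ≢ 0`, and `0 < m₁ ≤ μ ≤ m₂` on `Ω` for constants. -/
def HypA (Ω : Set ℂ) (c μ h : ℂ → ℝ) : Prop :=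
  Measurable c ∧ Measurable μ ∧ Measurable h ∧ (∃ K, ∀ z ∈ Ω, |c z| ≤ K ∧ |h z| ≤ K) ∧
    (∀ z ∈ Ω, 0 ≤ c z) ∧ (¬ ∀ᵐ z ∂(volume.restrict Ω), c z = 0) ∧
    ∃ m₁ m₂ : ℝ, 0 < m₁ ∧ ∀ z ∈ Ω, m₁ ≤ μ z ∧ μ z ≤ m₂

/-- Hypothesis (H1): (A) holds and the problem with `λ = 0` has a solution `u₀ ≥ 0` with
`c u₀ ≥ 0`, `c u₀ ≢ 0`. -/
def HypH1 (Ω : Set ℂ) (c μ h : ℂ → ℝ) : Prop :=
  HypA Ω c μ h ∧ ∃ u₀ : ℂ → ℝ, IsSol Ω 0 c μ h u₀ ∧ (∀ z ∈ Ω, 0 ≤ u₀ z) ∧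
    ¬ ∀ᵐ z ∂(volume.restrict Ω), c z * u₀ z = 0

/-- `lam` is smaller than the first eigenvalue `γ₁` of `-Δφ = γ c φ`, `φ ∈ H¹₀(Ω)`: there is
`γ > lam` with `γ ∫ c v² ≤ ∫ |∇v|²` for all `v ∈ H¹₀(Ω)`. -/
def BelowFirst (Ω : Set ℂ) (c : ℂ → ℝ) (lam : ℝ) : Prop :=
  ∃ γ : ℝ, lam < γ ∧ ∀ v gv, InH10 Ω v gv →
    γ * ∫ z in Ω, c z * v z ^ 2 ≤ ∫ z in Ω, ‖gv z‖ ^ 2

end Pool.Agent.X150.QE
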