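import Pool.Agent.X150.QE.Zero
import Pool.Agent.X150.QE.Hyp

/-! The counterexample. -/

set_option autoImplicit false
open Set Topology MeasureTheory Filter Metric

namespace Pool.Agent.X150.QE

theorem Arc.eig {S B γ : ℝ} {C H w dw : ℝ → ℝ} (hS : 0 < S)
    (h : Arc 0 0 S (fun _ => 0) (fun _ => 0) H w dw) (mC : Measurable C) (mH : Measurable H)
    (bC : ∀ s, |C s| ≤ B) (bH : ∀ s, |H s| ≤ B)
    (hγ : ∀ s ∈ Ioo 0 S, γ * (C s * w s) ≤ H s) {v : ℂ → ℝ} {gv : ℂ → ℂ}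
    (hv : InH10 (ann (Real.exp S)) v gv) :
    γ * ∫ z in ann (Real.exp S), rw2 C z * v z ^ 2 ≤ ∫ z in ann (Real.exp S), ‖gv z‖ ^ 2 := by
  obtain ⟨N, hN, hode⟩ := h.ode
  refine eig_H10 (K := B) (K' := B) (w := fun s => w (cl S s)) (dw := fun s => dw (cl S s))
    (ddw := fun s => - H s) (N := N) hS hN (cont_cl hS h.cdw) mH.neg
    (fun s _ => by rw [abs_neg]; exact bH s) ?_ ?_ ?_ mC (fun s _ => bC s) ?_ hv
  · intro s hs
    rw [cl_self hs]
    exact (h.hasDerivAt s hs).congr_of_eventuallyEq (cl_ev hs w)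
  · intro s hs hsN
    refine ((hode s hs hsN).2.congr_of_eventuallyEq (cl_ev hs dw)).congr_deriv ?_
    simp
  · intro s hs
    rw [cl_self hs]; exact h.pos s hs
  · intro s hs
    rw [cl_self hs, neg_neg]; exact hγ s hs

/-- right-hand side of the supersolution -/
noncomputable def HK (s : ℝ) : ℝ := if fold s ≤ s2 then 2 / 5 else 0

/-- half of the supersolution -/
noncomputable def psi (s : ℝ) : ℝ := if s ≤ s2 then 1 - 1 / 5 * (s2 - s) ^ 2 else 1

theorem psi_le (s : ℝ) : psi s ≤ 1 := by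
  unfold psi
  split_ifs
  · linarith [sq_nonneg (s2 - s)]
  · exact le_rfl

theorem s2_lt : s2 < 2.15 := by unfold s2; linarith [s1_lt]

theorem arc_psi : ∃ d, Arc 0 0 mm (fun _ => 0) (fun _ => 0) HK psi d ∧ d mm = 0 := by
  have hs2 := s2_lt
  have hs20 : 0 < s2 := by linarith [s1_pos, s12]
  have h1 : Arc 0 0 s2 (fun _ => 0) (fun _ => 0) HK (fun s => 1 - 1 / 5 * (s2 - s) ^ 2)
      (fun s => 2 / 5 * (s2 - s)) := by
    refine ⟨by fun_prop, by fun_prop, ?_, ∅, countable_empty, ?_⟩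
    · intro s hs
      nlinarith [hs.1, hs.2]
    · intro s hs _
      have e : HK s = 2 / 5 := by
        unfold HK
        rw [fold_left (by linarith [hs.2, s2m]), if_pos hs.2.le]
      have h0 : HasDerivAt (fun s : ℝ => s2 - s) (-1) s := by
        simpa using (hasDerivAt_id s).const_sub s2
      constructor
      · refine (((h0.pow 2).const_mul (1 / 5 : ℝ)).const_sub 1).congr_deriv ?_
        norm_num
        ring
      · refine (h0.const_mul (2 / 5 : ℝ)).congr_deriv ?_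
        rw [e]; norm_num
  have h2 : Arc 0 s2 mm (fun _ => 0) (fun _ => 0) HK (fun _ => 1) (fun _ => 0) := by
    refine ⟨continuousOn_const, continuousOn_const, fun _ _ => one_pos, ∅, countable_empty, ?_⟩
    intro s hs _
    have e : HK s = 0 := by
      unfold HK
      rw [fold_left hs.2.le, if_neg (not_le.2 hs.1)]
    refine ⟨hasDerivAt_const s _, (hasDerivAt_const s (0 : ℝ)).congr_deriv ?_⟩
    rw [e]; norm_num
  have h3 := h1.glue h2 hs20.le s2m.le (by norm_num) (by norm_num) (by norm_num)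
  refine ⟨_, h3, ?_⟩
  exact if_neg (not_le.2 s2m)

theorem full_psi : ∃ D, Arc 0 0 SS (fun _ => 0) (fun _ => 0) HK (full psi psi) D := by
  obtain ⟨d, hd, hm⟩ := arc_psi
  have k := hd.refl (S := SS) (fun _ => rfl) (fun _ => rfl) (fun s => by
    unfold HK; rw [fold_symm])
  rw [SSmm, sub_zero] at k
  refine ⟨_, hd.glue k mm_pos.le mS.le (by rw [SSmm]) (by rw [SSmm, hm, neg_zero]) ?_⟩
  unfold psi
  rw [if_neg (not_le.2 s2m)]
  exact one_pos

theorem below : BelowFirst (ann (Real.exp SS)) (rw2 CC) 1 := by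
  refine ⟨8 / 5, by norm_num, fun v gv hv => ?_⟩
  obtain ⟨D, hD⟩ := full_psi
  refine hD.eig (B := 6) SS_pos measurable_CC ?_ abs_CC ?_ ?_ hv
  · exact Measurable.ite (measurableSet_le measurable_fold measurable_const) measurable_const
      measurable_const
  · intro s
    unfold HK
    split_ifs <;> norm_num
  · intro s hs
    have h1 : full psi psi s ≤ 1 := by
      unfold full; split_ifs <;> exact psi_le _
    have h2 := hD.pos s hs
    have h3 := CC_le s
    have h4 := CC_nonneg s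
    unfold HK
    split_ifs with h5
    · have : CC s * full psi psi s ≤ 1 / 4 * 1 := mul_le_mul h3 h1 h2.le (by norm_num)
      linarith
    · have : CC s = 0 := by
        unfold CC
        rw [if_neg (fun h => h5 (h.trans s12.le)), if_neg h5]
      rw [this]; simp

/-- a point of the annulus -/
theorem pt {s : ℝ} (hs : s ∈ Ioo 0 SS) : ∃ z ∈ ann (Real.exp SS), Real.log ‖z‖ = s := by
  refine ⟨(Real.exp s : ℂ), ?_, ?_⟩
  · have : ‖(Real.exp s : ℂ)‖ = Real.exp s := by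
      rw [Complex.norm_real, Real.norm_eq_abs, abs_of_pos (Real.exp_pos s)]
    constructor
    · rw [this]; exact Real.one_lt_exp_iff.2 hs.1
    · rw [this]; exact Real.exp_lt_exp.2 hs.2
  · rw [Complex.norm_real, Real.norm_eq_abs, abs_of_pos (Real.exp_pos s), Real.log_exp]

theorem rsol_cont {lam : ℝ} {w dw : ℝ → ℝ} (h : Arc lam 0 SS CC MM HH w dw) (w0 : w 0 = 0) :
    Continuous (rsol SS w) :=
  continuous_rf (cont_cl SS_pos h.cw) fun s hs => by
    rw [cl, min_eq_right (hs.trans SS_pos.le), max_eq_left hs, w0]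

theorem rsol_ne {lam lam' : ℝ} {w dw w' dw' : ℝ → ℝ} (h : Arc lam 0 SS CC MM HH w dw)
    (w0 : w 0 = 0) (h' : Arc lam' 0 SS CC MM HH w' dw') (w0' : w' 0 = 0) (hne : w s2 ≠ w' s2) :
    ¬ rsol SS w =ᵐ[volume.restrict (ann (Real.exp SS))] rsol SS w' := by
  intro hae
  have hs : s2 ∈ Ioo 0 SS := ⟨by linarith [s1_pos, s12], by linarith [s2m, mS]⟩
  obtain ⟨z, hz, hlog⟩ := pt hs
  have := Measure.eqOn_open_of_ae_eq hae (isOpen_ann _) (rsol_cont h w0).continuousOn
    (rsol_cont h' w0').continuousOn hz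
  simp only [rsol, rf, hlog, cl_self hs] at this
  exact hne this

/-- zone two has positive measure -/
theorem zone_pos {p : ℂ → Prop} (hp : ∀ z ∈ ann (Real.exp SS), Real.log ‖z‖ ∈ Ioo s1 s2 → ¬ p z) :
    ¬ ∀ᵐ z ∂(volume.restrict (ann (Real.exp SS))), p z := by
  intro hae
  have h1 : (s1 + s2) / 2 ∈ Ioo 0 SS :=
    ⟨by linarith [s1_pos, s12], by linarith [s12, s2m, mS, s1_pos]⟩
  obtain ⟨z, hz, hlog⟩ := pt h1
  have hopen : IsOpen (ann (Real.exp SS) ∩ (fun z : ℂ => Real.log ‖z‖) ⁻¹' (Ioo s1 s2)) := by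
    refine ContinuousOn.isOpen_inter_preimage ?_ (isOpen_ann _) isOpen_Ioo
    exact Real.continuousOn_log.comp continuous_norm.continuousOn fun y hy => by
      have := hy.1
      simp only [mem_compl_iff, mem_singleton_iff]
      linarith
  have hpos := hopen.measure_pos volume ⟨z, hz, by
    simp only [mem_preimage, hlog]
    exact ⟨by linarith [s12], by linarith [s12]⟩⟩
  rw [ae_restrict_iff' (measurableSet_ann _)] at hae
  have h0 : volume (ann (Real.exp SS) ∩ (fun z : ℂ => Real.log ‖z‖) ⁻¹' (Ioo s1 s2)) = 0 := by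
    refine measure_mono_null (fun y hy => ?_) (ae_iff.1 hae)
    intro hc
    exact hp y hy.1 hy.2 (hc hy.1)
  rw [h0] at hpos
  exact lt_irrefl _ hpos

theorem CC_zone {z : ℂ} (h : Real.log ‖z‖ ∈ Ioo s1 s2) (hz : z ∈ ann (Real.exp SS)) :
    0 < rw2 CC z := by
  have h0 : 0 < ‖z‖ := by linarith [hz.1]
  unfold rw2
  rw [(zII h).1]
  refine div_pos (CII_pos ⟨by linarith [h.1], ?_⟩) (pow_pos h0 2)
  have := h.2
  unfold s2 at this
  linarith

theorem hypA : HypA (ann (Real.exp SS)) (rw2 CC) (rf MM) (rw2 HH) := by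
  refine ⟨measurable_rw2 measurable_CC, ?_, measurable_rw2 measurable_HH, ⟨6, fun z hz => ?_⟩,
    fun z hz => ?_, ?_, 1 / 4, 6, by norm_num, fun z _ => ⟨le_MM _, MM_le _⟩⟩
  · exact measurable_MM.comp (Real.measurable_log.comp measurable_norm)
  · exact ⟨(abs_rw2 hz.1).trans (abs_CC _), (abs_rw2 hz.1).trans (abs_HH _)⟩
  · exact div_nonneg (CC_nonneg _) (by positivity)
  · exact zone_pos fun z hz hl h0 => (CC_zone hl hz).ne' h0

theorem hypH1 : HypH1 (ann (Real.exp SS)) (rw2 CC) (rf MM) (rw2 HH) := by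
  refine ⟨hypA, ?_⟩
  obtain ⟨f, d, hf, f0, fm, dm⟩ := exists_u0
  obtain ⟨D, hD⟩ := fullArc hf hf rfl (by rw [dm, neg_zero]) fm
  have hpos : ∀ z ∈ ann (Real.exp SS), 0 < rsol SS (full f f) z := fun z hz => by
    have h1 := log_mem hz
    simp only [rsol, rf, cl_self h1]
    exact hD.pos _ h1
  refine ⟨_, isSol_full hf hf rfl (by rw [dm, neg_zero]) fm f0 f0, fun z hz => (hpos z hz).le, ?_⟩
  exact zone_pos fun z hz hl h0 => (mul_pos (CC_zone hl hz) (hpos z hz)).ne' h0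

theorem rsol_pos {lam : ℝ} {w dw : ℝ → ℝ} (h : Arc lam 0 SS CC MM HH w dw) :
    ∀ z ∈ ann (Real.exp SS), 0 < rsol SS w z := fun z hz => by
  have h1 := log_mem hz
  simp only [rsol, rf, cl_self h1]
  exact h.pos _ h1

theorem main : ∃ R : ℝ, 1 < R ∧ ∃ c μ h : ℂ → ℝ, HypH1 (ann R) c μ h ∧ BelowFirst (ann R) c 1 ∧
    ∃ u₁ u₂ u₃ : ℂ → ℝ, IsSol (ann R) 1 c μ h u₁ ∧ IsSol (ann R) 1 c μ h u₂ ∧
      IsSol (ann R) 1 c μ h u₃ ∧ (∀ z ∈ ann R, 0 < u₁ z ∧ 0 < u₂ z ∧ 0 < u₃ z) ∧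
      ¬ u₁ =ᵐ[volume.restrict (ann R)] u₂ ∧
      ¬ u₁ =ᵐ[volume.restrict (ann R)] u₃ ∧ ¬ u₂ =ᵐ[volume.restrict (ann R)] u₃ := by
  have a1 : 0 < hA mm := by rw [hA_mm]; norm_num
  have a2 : dA mm = - dA mm := by rw [dA_mm, neg_zero]
  have v1 := hV_mm_pos
  have u1 : 0 < hU mm := by rw [mid_UV]; exact v1
  have uv : dV mm = - dU mm := by rw [dmid_UV, neg_neg]
  obtain ⟨DA, hDA⟩ := fullArc arcA arcA rfl a2 a1
  obtain ⟨DU, hDU⟩ := fullArc arcU arcV mid_UV dmid_UV u1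
  obtain ⟨DV, hDV⟩ := fullArc arcV arcU mid_UV.symm uv v1
  have zA : full hA hA 0 = 0 := by rw [full_zero, hA_zero]
  have zU : full hU hV 0 = 0 := by rw [full_zero, hU_zero]
  have zV : full hV hU 0 = 0 := by rw [full_zero, hV_zero]
  refine ⟨Real.exp SS, Real.one_lt_exp_iff.2 SS_pos, _, _, _, hypH1, below, _, _, _,
    isSol_full arcA arcA rfl a2 a1 hA_zero hA_zero,
    isSol_full arcU arcV mid_UV dmid_UV u1 hU_zero hV_zero,
    isSol_full arcV arcU mid_UV.symm uv v1 hV_zero hU_zero,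
    fun z hz => ⟨rsol_pos hDA z hz, rsol_pos hDU z hz, rsol_pos hDV z hz⟩,
    rsol_ne hDA zA hDU zU ?_, rsol_ne hDA zA hDV zV ?_, rsol_ne hDU zU hDV zV ?_⟩
  · rw [full_s2, full_s2, hA_s2, hU_s2]; norm_num
  · rw [full_s2, full_s2, hA_s2, hV_s2]; norm_num
  · rw [full_s2, full_s2, hU_s2, hV_s2]; norm_num

end Pool.Agent.X150.QE
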