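import Pool.Agent.X150.QE.Zones

/-! Gluing the zones. -/

set_option autoImplicit false
open Set Topology MeasureTheory Filter Metric

namespace Pool.Agent.X150.QE

variable {lam : ℝ} {f g d e f1 f2 f3 d1 d2 d3 : ℝ → ℝ}

theorem arcII {f'' : ℝ → ℝ} (cf : ContinuousOn f (Icc 0 1)) (cd : ContinuousOn d (Icc 0 1))
    (hf : ∀ t ∈ Ioo (0 : ℝ) 1, HasDerivAt f (d t) t)
    (hd : ∀ t ∈ Ioo (0 : ℝ) 1, HasDerivAt d (f'' t) t) (pos : ∀ t ∈ Ioo (0 : ℝ) 1, 0 < f t)
    (heq : ∀ t ∈ Ioo (0 : ℝ) 1,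
      f'' t = -(lam * (CII t * f t) + MII t * d t ^ 2 + -(CII t / 2))) :
    Arc lam s1 s2 CC MM HH (fun s => f (s - s1)) (fun s => d (s - s1)) := by
  have hc : Continuous fun s : ℝ => s - s1 := by fun_prop
  have hm : ∀ s ∈ Icc s1 s2, s - s1 ∈ Icc (0 : ℝ) 1 := fun s hs =>
    ⟨by linarith [hs.1], by have := hs.2; unfold s2 at this; linarith⟩
  have hm' : ∀ s ∈ Ioo s1 s2, s - s1 ∈ Ioo (0 : ℝ) 1 := fun s hs =>
    ⟨by linarith [hs.1], by have := hs.2; unfold s2 at this; linarith⟩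
  refine ⟨cf.comp hc.continuousOn hm, cd.comp hc.continuousOn hm, fun s hs => pos _ (hm' s hs),
    ∅, countable_empty, fun s hs _ => ?_⟩
  obtain ⟨e1, e2, e3⟩ := zII hs
  have k : HasDerivAt (fun s : ℝ => s - s1) 1 s := (hasDerivAt_id s).sub_const s1
  constructor
  · have := (hf _ (hm' s hs)).comp s k
    simpa [Function.comp_def] using this
  · have := (hd _ (hm' s hs)).comp s k
    rw [heq _ (hm' s hs)] at this
    rw [e1, e2, e3]
    simpa [Function.comp_def] using this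

/-- gluing three functions -/
noncomputable def gl3 (f1 f2 f3 : ℝ → ℝ) (s : ℝ) : ℝ :=
  if s ≤ s2 then (if s ≤ s1 then f1 s else f2 s) else f3 s

theorem gl3_zero : gl3 f1 f2 f3 0 = f1 0 := by
  have h1 := s1_pos
  have h2 := s12
  rw [gl3, if_pos (by linarith), if_pos h1.le]

theorem gl3_s2 : gl3 f1 f2 f3 s2 = f2 s2 := by
  rw [gl3, if_pos le_rfl, if_neg (not_le.2 s12)]

theorem gl3_mm : gl3 f1 f2 f3 mm = f3 mm := by
  rw [gl3, if_neg (not_le.2 s2m)]

theorem leftArc (hI : Arc lam 0 s1 CC MM HH f1 d1) (hII : Arc lam s1 s2 CC MM HH f2 d2)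
    (hIII : Arc lam s2 mm CC MM HH f3 d3) (h1 : f1 s1 = f2 s1) (h1' : d1 s1 = d2 s1)
    (p1 : 0 < f1 s1) (h2 : f2 s2 = f3 s2) (h2' : d2 s2 = d3 s2) (p2 : 0 < f2 s2) :
    Arc lam 0 mm CC MM HH (gl3 f1 f2 f3) (gl3 d1 d2 d3) := by
  have k1 := hI.glue hII s1_pos.le s12.le h1 h1' p1
  have e1 : ¬ s2 ≤ s1 := not_le.2 s12
  exact k1.glue hIII (s1_pos.le.trans s12.le) s2m.le (by rw [if_neg e1, h2])
    (by rw [if_neg e1, h2']) (by rw [if_neg e1]; exact p2)

/-- the function on the whole interval -/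
noncomputable def full (f g : ℝ → ℝ) (s : ℝ) : ℝ := if s ≤ mm then f s else g (SS - s)

theorem SSmm : SS - mm = mm := by unfold SS; ring

theorem fullArc (hf : Arc lam 0 mm CC MM HH f d) (hg : Arc lam 0 mm CC MM HH g e)
    (h : f mm = g mm) (h' : d mm = - e mm) (p : 0 < f mm) :
    ∃ D, Arc lam 0 SS CC MM HH (full f g) D := by
  have k := hg.refl (S := SS) CC_symm MM_symm HH_symm
  rw [SSmm, sub_zero] at k
  exact ⟨_, hf.glue k mm_pos.le mS.le (by rw [SSmm, h]) (by rw [SSmm, h']) p⟩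

theorem full_zero : full f g 0 = f 0 := by rw [full, if_pos mm_pos.le]

theorem full_SS : full f g SS = g 0 := by
  rw [full, if_neg (not_le.2 mS), sub_self]

theorem full_s2 : full f g s2 = f s2 := by rw [full, if_pos s2m.le]

/-- the radial solution from two half solutions -/
theorem isSol_full (hf : Arc lam 0 mm CC MM HH f d) (hg : Arc lam 0 mm CC MM HH g e)
    (h : f mm = g mm) (h' : d mm = - e mm) (p : 0 < f mm) (f0 : f 0 = 0) (g0 : g 0 = 0) :
    IsSol (ann (Real.exp SS)) lam (rw2 CC) (rf MM) (rw2 HH) (rsol SS (full f g)) := by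
  obtain ⟨D, hD⟩ := fullArc hf hg h h' p
  exact hD.isSol SS_pos (by rw [full_zero, f0]) (by rw [full_SS, g0]) measurable_CC
    measurable_MM measurable_HH abs_CC abs_MM abs_HH

end Pool.Agent.X150.QE
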