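import Pool.Agent.X150.QE.Ricc

/-! The half solutions of the example. -/

set_option autoImplicit false
open Set Topology MeasureTheory Filter Metric

namespace Pool.Agent.X150.QE

theorem mm_sub : mm - s2 = 8 / LL := by unfold mm; ring

theorem s2_sub : s2 - s1 = 1 := by unfold s2; ring

theorem wIII_s2 (y k : ℝ) : wIII y k s2 = y := by simp [wIII]

theorem dIII_s2 (k : ℝ) : dIII k s2 = 2 / LL * k := by simp [dIII]

theorem wIII_const (y s : ℝ) : wIII y 0 s = y := by simp [wIII]

theorem dIII_const (s : ℝ) : dIII 0 s = 0 := by simp [dIII]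

theorem arcIII_const (lam : ℝ) {y : ℝ} (hy : 0 < y) :
    Arc lam s2 mm CC MM HH (wIII y 0) (dIII 0) :=
  arcIII lam (fun s _ => by norm_num) fun s _ => by rw [wIII_const]; exact hy

/-- half of `w₁` -/
noncomputable def hA : ℝ → ℝ := gl3 (wI 1) (fun _ => 1 / 2) (wIII (1 / 2) 0)
/-- its derivative -/
noncomputable def dA : ℝ → ℝ := gl3 (dI 1) (fun _ => 0) (dIII 0)
/-- first half of `w₂` -/
noncomputable def hU : ℝ → ℝ := gl3 (wI 31) (fun s => PU (s - s1) + 1 / 2) (wIII (79 / 16) (-LL / 32))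
/-- its derivative -/
noncomputable def dU : ℝ → ℝ := gl3 (dI 31) (fun s => DU (s - s1)) (dIII (-LL / 32))
/-- first half of `w₃` -/
noncomputable def hV : ℝ → ℝ := gl3 (wI 7) (fun s => PV (s - s1) + 1 / 2) (wIII (47 / 16) (LL / 16))
/-- its derivative -/
noncomputable def dV : ℝ → ℝ := gl3 (dI 7) (fun s => DV (s - s1)) (dIII (LL / 16))

theorem log_pow_div (n : ℕ) : Real.log (2 ^ n) / LL = n := by
  rw [Real.log_pow]
  have := LL_pos
  unfold LL at *
  field_simp

theorem arcA : Arc 1 0 mm CC MM HH hA dA := by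
  have hv : wI 1 s1 = 1 / 2 := by
    rw [wI_s1 (by norm_num)]
    have := log_pow_div 1
    norm_num at this ⊢
    rw [this]; norm_num
  have h2 : Arc 1 s1 s2 CC MM HH (fun _ => 1 / 2) (fun _ => 0) :=
    arcII (f := fun _ => 1 / 2) (d := fun _ => 0) (f'' := fun _ => 0) continuousOn_const
      continuousOn_const (fun t _ => hasDerivAt_const t _) (fun t _ => hasDerivAt_const t _)
      (fun t _ => by norm_num) (fun t _ => by ring)
  refine leftArc (arcI 1 (by norm_num)) h2 (arcIII_const 1 (by norm_num)) hv ?_ ?_ ?_ ?_ ?_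
  · rw [dI_s1 (by norm_num)]; norm_num
  · rw [hv]; norm_num
  · rw [wIII_const]
  · rw [dIII_const]
  · norm_num

theorem arcU : Arc 1 0 mm CC MM HH hU dU := by
  have hL := LL_pos
  have hv : wI 31 s1 = 9 / 2 := by
    rw [wI_s1 (by norm_num)]
    have := log_pow_div 5
    norm_num at this ⊢
    rw [this]; norm_num
  have h2 : Arc 1 s1 s2 CC MM HH (fun s => PU (s - s1) + 1 / 2) (fun s => DU (s - s1)) := by
    refine arcII (f := fun t => PU t + 1 / 2) (d := DU) (f'' := fun _ => -1) ?_ ?_ ?_ ?_ ?_ ?_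
    · unfold PU; fun_prop
    · unfold DU; fun_prop
    · intro t _
      have h1 := (((hasDerivAt_id t).const_mul (15 / 16 : ℝ)).const_add (4 : ℝ)).sub
        (((hasDerivAt_id t).pow 2).const_mul (1 / 2 : ℝ)) |>.add_const (1 / 2 : ℝ)
      refine (h1.congr_deriv ?_).congr_of_eventuallyEq (Eventually.of_forall fun x => ?_)
      · unfold DU; simp
      · simp [PU]
    · intro t _
      have h1 := (hasDerivAt_id t).const_sub (15 / 16 : ℝ)
      exact (h1.congr_deriv rfl).congr_of_eventuallyEq (Eventually.of_forall fun x => by simp [DU])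
    · intro t ht
      unfold PU
      nlinarith [ht.1, ht.2]
    · intro t ht
      have := eq_U (Ioo_subset_Icc_self ht)
      linarith
  have hk : ∀ s ∈ Icc s2 mm, 3 / 4 ≤ 1 + -LL / 32 * (s - s2) := by
    intro s hs
    have h3 : s - s2 ≤ 8 / LL := by rw [← mm_sub]; linarith [hs.2]
    have h4 := mul_le_mul_of_nonneg_left h3 hL.le
    rw [mul_div_cancel₀ _ hL.ne'] at h4
    linarith
  have h3 : Arc 1 s2 mm CC MM HH (wIII (79 / 16) (-LL / 32)) (dIII (-LL / 32)) := by
    refine arcIII 1 (fun s hs => by linarith [hk s hs]) fun s hs => ?_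
    have h4 := hk s (Ioo_subset_Icc_self hs)
    have h5 := Real.one_sub_inv_le_log_of_pos (show 0 < 1 + -LL / 32 * (s - s2) by linarith)
    have h6 : (1 + -LL / 32 * (s - s2))⁻¹ ≤ (3 / 4 : ℝ)⁻¹ := inv_anti₀ (by norm_num) h4
    have h7 : -(1 / 3) ≤ Real.log (1 + -LL / 32 * (s - s2)) := by
      refine le_trans ?_ h5
      norm_num at h6 ⊢
      linarith
    have h8 : 2 / LL ≤ 3 := by rw [div_le_iff₀ hL]; linarith [LL_gt]
    have h9 : 0 < 2 / LL := by positivity
    unfold wIII
    nlinarith [mul_le_mul_of_nonneg_left h7 h9.le]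
  refine leftArc (arcI 1 (by norm_num)) h2 h3 ?_ ?_ ?_ ?_ ?_ ?_
  · rw [hv, sub_self]; unfold PU; norm_num
  · rw [dI_s1 (by norm_num), sub_self]; unfold DU; norm_num
  · rw [hv]; norm_num
  · rw [wIII_s2, s2_sub]; unfold PU; norm_num
  · rw [dIII_s2, s2_sub]; unfold DU; field_simp; norm_num
  · rw [s2_sub]; unfold PU; norm_num

theorem arcV : Arc 1 0 mm CC MM HH hV dV := by
  have hL := LL_pos
  have hv : wI 7 s1 = 5 / 2 := by
    rw [wI_s1 (by norm_num)]
    have := log_pow_div 3
    norm_num at this ⊢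
    rw [this]; norm_num
  have h2 : Arc 1 s1 s2 CC MM HH (fun s => PV (s - s1) + 1 / 2) (fun s => DV (s - s1)) := by
    refine arcII (f := fun t => PV t + 1 / 2) (d := DV) (f'' := fun _ => -(5 / 8)) ?_ ?_ ?_ ?_ ?_ ?_
    · unfold PV; fun_prop
    · unfold DV; fun_prop
    · intro t _
      have h1 := (((hasDerivAt_id t).const_mul (3 / 4 : ℝ)).const_add (2 : ℝ)).sub
        (((hasDerivAt_id t).pow 2).const_mul (5 / 16 : ℝ)) |>.add_const (1 / 2 : ℝ)
      refine (h1.congr_deriv ?_).congr_of_eventuallyEq (Eventually.of_forall fun x => ?_)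
      · unfold DV; simp; ring
      · simp [PV]
    · intro t _
      have h1 := ((hasDerivAt_id t).const_mul (5 / 8 : ℝ)).const_sub (3 / 4 : ℝ)
      refine (h1.congr_deriv ?_).congr_of_eventuallyEq (Eventually.of_forall fun x => by simp [DV])
      ring
    · intro t ht
      unfold PV
      nlinarith [ht.1, ht.2]
    · intro t ht
      have := eq_V (Ioo_subset_Icc_self ht)
      linarith
  have hk : ∀ s ∈ Icc s2 mm, 1 ≤ 1 + LL / 16 * (s - s2) := by
    intro s hs
    have : 0 ≤ LL / 16 * (s - s2) := mul_nonneg (by positivity) (by linarith [hs.1])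
    linarith
  have h3 : Arc 1 s2 mm CC MM HH (wIII (47 / 16) (LL / 16)) (dIII (LL / 16)) := by
    refine arcIII 1 (fun s hs => by linarith [hk s hs]) fun s hs => ?_
    have h4 := Real.log_nonneg (hk s (Ioo_subset_Icc_self hs))
    have h9 : 0 < 2 / LL := by positivity
    unfold wIII
    have := mul_nonneg h9.le h4
    linarith
  refine leftArc (arcI 1 (by norm_num)) h2 h3 ?_ ?_ ?_ ?_ ?_ ?_
  · rw [hv, sub_self]; unfold PV; norm_num
  · rw [dI_s1 (by norm_num), sub_self]; unfold DV; norm_num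
  · rw [hv]; norm_num
  · rw [wIII_s2, s2_sub]; unfold PV; norm_num
  · rw [dIII_s2, s2_sub]; unfold DV; field_simp; norm_num
  · rw [s2_sub]; unfold PV; norm_num

theorem mid_UV : hU mm = hV mm := by
  have hL := LL_pos
  rw [hU, hV, gl3_mm, gl3_mm, wIII, wIII, mm_sub]
  have e1 : 1 + -LL / 32 * (8 / LL) = 3 / 4 := by field_simp; norm_num
  have e2 : 1 + LL / 16 * (8 / LL) = 3 / 2 := by field_simp; norm_num
  rw [e1, e2]
  have e3 : Real.log (3 / 4) = Real.log (3 / 2) - LL := by
    unfold LL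
    rw [← Real.log_div (by norm_num) (by norm_num)]
    norm_num
  rw [e3]
  field_simp
  ring

theorem dmid_UV : dU mm = - dV mm := by
  have hL := LL_pos
  rw [dU, dV, gl3_mm, gl3_mm, dIII, dIII, mm_sub]
  have e1 : 1 + -LL / 32 * (8 / LL) = 3 / 4 := by field_simp; norm_num
  have e2 : 1 + LL / 16 * (8 / LL) = 3 / 2 := by field_simp; norm_num
  rw [e1, e2]
  field_simp
  norm_num

theorem hA_mm : hA mm = 1 / 2 := by rw [hA, gl3_mm, wIII_const]
theorem dA_mm : dA mm = 0 := by rw [dA, gl3_mm, dIII_const]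

theorem hV_mm_pos : 0 < hV mm := by
  have hL := LL_pos
  rw [hV, gl3_mm, wIII, mm_sub]
  have e2 : 1 + LL / 16 * (8 / LL) = 3 / 2 := by field_simp; norm_num
  rw [e2]
  have : 0 ≤ 2 / LL * Real.log (3 / 2) := mul_nonneg (by positivity) (Real.log_nonneg (by norm_num))
  linarith

theorem hA_zero : hA 0 = 0 := by rw [hA, gl3_zero, wI_zero]
theorem hU_zero : hU 0 = 0 := by rw [hU, gl3_zero, wI_zero]
theorem hV_zero : hV 0 = 0 := by rw [hV, gl3_zero, wI_zero]

theorem hA_s2 : hA s2 = 1 / 2 := by rw [hA, gl3_s2]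
theorem hU_s2 : hU s2 = 79 / 16 := by rw [hU, gl3_s2, s2_sub]; unfold PU; norm_num
theorem hV_s2 : hV s2 = 47 / 16 := by rw [hV, gl3_s2, s2_sub]; unfold PV; norm_num

end Pool.Agent.X150.QE
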