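import Pool.Agent.X150.QE.Radial

/-! Passing to the limit in the weak equation. -/

set_option autoImplicit false
open Set Topology MeasureTheory Filter Metric

namespace Pool.Agent.X150.QE

theorem tendsto_inner_L2 {E α : Type*} [NormedAddCommGroup E] [InnerProductSpace ℝ E]
    [MeasurableSpace α] {μ : Measure α} {f g : α → E} {F G : ℕ → α → E}
    (hf : MemLp f 2 μ) (hg : MemLp g 2 μ) (hF : ∀ n, MemLp (F n) 2 μ) (hG : ∀ n, MemLp (G n) 2 μ)
    (h1 : Tendsto (fun n => eLpNorm (F n - f) 2 μ) atTop (𝓝 0))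
    (h2 : Tendsto (fun n => eLpNorm (G n - g) 2 μ) atTop (𝓝 0)) :
    Tendsto (fun n => ∫ x, inner ℝ (F n x) (G n x) ∂μ) atTop (𝓝 (∫ x, inner ℝ (f x) (g x) ∂μ)) := by
  have : Fact ((1 : ENNReal) ≤ 2) := ⟨by norm_num⟩
  have e : ∀ {a b : α → E} (ha : MemLp a 2 μ) (hb : MemLp b 2 μ),
      inner ℝ (ha.toLp a) (hb.toLp b) = ∫ x, inner ℝ (a x) (b x) ∂μ := by
    intro a b ha hb
    rw [L2.inner_def]
    refine integral_congr_ae ?_
    filter_upwards [ha.coeFn_toLp, hb.coeFn_toLp] with x h3 h4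
    rw [h3, h4]
  have k1 := (Lp.tendsto_Lp_iff_tendsto_eLpNorm'' F hF f hf).2 h1
  have k2 := (Lp.tendsto_Lp_iff_tendsto_eLpNorm'' G hG g hg).2 h2
  have k3 := k1.inner (𝕜 := ℝ) k2
  rw [e hf hg] at k3
  refine k3.congr fun n => e (hF n) (hG n)

theorem integrable_inner2 {E α : Type*} [NormedAddCommGroup E] [InnerProductSpace ℝ E]
    [MeasurableSpace α] {μ : Measure α} {f g : α → E} (hf : MemLp f 2 μ) (hg : MemLp g 2 μ) :
    Integrable (fun x => inner ℝ (f x) (g x)) μ := by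
  refine (L2.integrable_inner (𝕜 := ℝ) (hf.toLp f) (hg.toLp g)).congr ?_
  filter_upwards [hf.coeFn_toLp, hg.coeFn_toLp] with x h3 h4
  rw [h3, h4]

theorem tendsto_inner_left {E α : Type*} [NormedAddCommGroup E] [InnerProductSpace ℝ E]
    [MeasurableSpace α] {μ : Measure α} {f g : α → E} {G : ℕ → α → E}
    (hf : MemLp f 2 μ) (hg : MemLp g 2 μ) (hG : ∀ n, MemLp (G n) 2 μ)
    (h2 : Tendsto (fun n => eLpNorm (G n - g) 2 μ) atTop (𝓝 0)) :
    Tendsto (fun n => ∫ x, inner ℝ (f x) (G n x) ∂μ) atTop (𝓝 (∫ x, inner ℝ (f x) (g x) ∂μ)) := by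
  refine tendsto_inner_L2 hf hg (fun _ => hf) hG ?_ h2
  simp only [sub_self, eLpNorm_zero]
  exact tendsto_const_nhds

theorem finite_ann (R : ℝ) : volume (ann R) < ⊤ :=
  lt_of_le_of_lt (measure_mono (fun z hz => by
    simp only [mem_closedBall, dist_zero_right]; exact hz.2.le : ann R ⊆ closedBall 0 R))
    measure_closedBall_lt_top

instance (R : ℝ) : IsFiniteMeasure (volume.restrict (ann R)) :=
  ⟨by rw [Measure.restrict_apply_univ]; exact finite_ann R⟩

theorem memLp_test {Ω : Set ℂ} {φ : ℂ → ℝ} (h : IsTest Ω φ) :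
    MemLp φ 2 (volume.restrict Ω) :=
  h.1.continuous.memLp_of_hasCompactSupport h.2.1

theorem memLp_grad {Ω : Set ℂ} {φ : ℂ → ℝ} (h : IsTest Ω φ) :
    MemLp (gradient φ) 2 (volume.restrict Ω) := by
  refine Continuous.memLp_of_hasCompactSupport ?_ ?_
  · exact (InnerProductSpace.toDual ℝ ℂ).symm.continuous.comp
      (h.1.continuous_fderiv one_ne_zero)
  · exact (h.2.1.fderiv ℝ).comp_left (g := (InnerProductSpace.toDual ℝ ℂ).symm) (map_zero _)

/-- a bounded measurable function on the annulus is square integrable -/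
theorem memLp_bdd {E : Type*} [NormedAddCommGroup E] {R : ℝ} {f : ℂ → E}
    (hm : AEStronglyMeasurable f (volume.restrict (ann R))) {K : ℝ}
    (hb : ∀ z ∈ ann R, ‖f z‖ ≤ K) : MemLp f 2 (volume.restrict (ann R)) :=
  MemLp.of_bound hm K ((ae_restrict_mem (measurableSet_ann R)).mono fun z hz => hb z hz)

variable {S : ℝ} {N : Set ℝ} {dw ddw : ℝ → ℝ}

/-- the gradient of `w(log |z|)` -/
noncomputable def rg (dw : ℝ → ℝ) (z : ℂ) : ℂ := (dw (Real.log ‖z‖) / ‖z‖ ^ 2) • z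

theorem log_mem {z : ℂ} (hz : z ∈ ann (Real.exp S)) : Real.log ‖z‖ ∈ Ioo 0 S := by
  have h0 : 0 < ‖z‖ := by linarith [hz.1]
  exact ⟨Real.log_pos hz.1, by rw [← Real.log_exp S]; exact Real.log_lt_log h0 hz.2⟩

theorem norm_rg {z : ℂ} (hz : 1 < ‖z‖) : ‖rg dw z‖ = |dw (Real.log ‖z‖)| / ‖z‖ := by
  have h0 : 0 < ‖z‖ := by linarith
  rw [rg, norm_smul, norm_div, norm_pow, norm_norm, Real.norm_eq_abs]
  field_simp

theorem measurable_rg (hc : Measurable dw) : Measurable (rg dw) := by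
  unfold rg
  have h1 : Measurable fun z : ℂ => Real.log ‖z‖ := Real.measurable_log.comp measurable_norm
  exact ((hc.comp h1).div (measurable_norm.pow_const 2)).smul measurable_id

theorem memLp_rg (hc : Continuous dw) : MemLp (rg dw) 2 (volume.restrict (ann (Real.exp S))) := by
  obtain ⟨A, hA⟩ := (isCompact_Icc (a := (0 : ℝ)) (b := S)).exists_bound_of_continuousOn
    hc.continuousOn
  refine memLp_bdd (K := A) (measurable_rg hc.measurable).aestronglyMeasurable fun z hz => ?_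
  rw [norm_rg hz.1]
  have h1 := hA _ (Ioo_subset_Icc_self (log_mem hz))
  rw [Real.norm_eq_abs] at h1
  exact (div_le_self (abs_nonneg _) hz.1.le).trans h1

/-- radial weight -/
noncomputable def rw2 (F : ℝ → ℝ) (z : ℂ) : ℝ := F (Real.log ‖z‖) / ‖z‖ ^ 2

theorem abs_rw2 {F : ℝ → ℝ} {z : ℂ} (hz : 1 < ‖z‖) : |rw2 F z| ≤ |F (Real.log ‖z‖)| := by
  have h0 : 0 < ‖z‖ := by linarith
  rw [rw2, abs_div, abs_of_pos (pow_pos h0 2)]
  exact div_le_self (abs_nonneg _) (one_le_pow₀ hz.le)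

theorem measurable_rw2 {F : ℝ → ℝ} (hm : Measurable F) : Measurable (rw2 F) := by
  have h1 : Measurable fun z : ℂ => Real.log ‖z‖ := Real.measurable_log.comp measurable_norm
  exact (hm.comp h1).div (measurable_norm.pow_const 2)

theorem memLp_rw2 {F : ℝ → ℝ} (hm : Measurable F) {K : ℝ} (hb : ∀ s ∈ Ioo 0 S, |F s| ≤ K) :
    MemLp (rw2 F) 2 (volume.restrict (ann (Real.exp S))) :=
  memLp_bdd (K := K) (measurable_rw2 hm).aestronglyMeasurable fun z hz => by
    rw [Real.norm_eq_abs]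
    exact (abs_rw2 hz.1).trans (hb _ (log_mem hz))

theorem weak_test (hS : 0 < S) (hN : N.Countable) (hc : Continuous dw) (hm : Measurable ddw)
    {K : ℝ} (hb : ∀ s ∈ Icc 0 S, |ddw s| ≤ K)
    (hd : ∀ s ∈ Ioo 0 S, s ∉ N → HasDerivAt dw (ddw s) s) {φ : ℂ → ℝ}
    (hφ : IsTest (ann (Real.exp S)) φ) :
    ∫ z in ann (Real.exp S), inner ℝ (rg dw z) (gradient φ z) =
      - ∫ z in ann (Real.exp S), inner ℝ (rw2 ddw z) (φ z) := by
  have h1 := integral_wf hS hN hc hm hb hd hφ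
  unfold wf at h1
  rw [integral_indicator (measurableSet_ann _)] at h1
  have e1 : ∀ z : ℂ, fderiv ℝ φ z ((dw (Real.log ‖z‖) / ‖z‖ ^ 2) • z) +
      ddw (Real.log ‖z‖) / ‖z‖ ^ 2 * φ z =
      inner ℝ (rg dw z) (gradient φ z) + inner ℝ (rw2 ddw z) (φ z) := by
    intro z
    rw [real_inner_comm (gradient φ z), inner_gradient_left]
    simp only [rg, rw2, Real.inner_apply]
  simp only [e1] at h1
  rw [integral_add] at h1
  · linarith
  · exact integrable_inner2 (memLp_rg hc) (memLp_grad hφ)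
  · exact integrable_inner2 (memLp_rw2 hm (fun s hs => hb s (Ioo_subset_Icc_self hs))) (memLp_test hφ)

theorem weak_H10 (hS : 0 < S) (hN : N.Countable) (hc : Continuous dw) (hm : Measurable ddw)
    {K : ℝ} (hb : ∀ s ∈ Icc 0 S, |ddw s| ≤ K)
    (hd : ∀ s ∈ Ioo 0 S, s ∉ N → HasDerivAt dw (ddw s) s) {v : ℂ → ℝ} {gv : ℂ → ℂ}
    (hv : InH10 (ann (Real.exp S)) v gv) :
    ∫ z in ann (Real.exp S), inner ℝ (rg dw z) (gv z) =
      - ∫ z in ann (Real.exp S), inner ℝ (rw2 ddw z) (v z) := by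
  obtain ⟨h1, h2, φ, hφ, h3, h4⟩ := hv
  have k1 := tendsto_inner_left (memLp_rg (S := S) hc) h2 (fun n => memLp_grad (hφ n)) h4
  have k2 := tendsto_inner_left
    (memLp_rw2 hm (fun s hs => hb s (Ioo_subset_Icc_self hs))) h1 (fun n => memLp_test (hφ n)) h3
  have k3 := k2.neg
  refine tendsto_nhds_unique k1 (k3.congr fun n => ?_)
  exact (weak_test hS hN hc hm hb hd (hφ n)).symm

end Pool.Agent.X150.QE
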