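import Pool.Agent.X150.QE.Limit

/-! Radial functions in `H¹₀`. -/

set_option autoImplicit false
open Set Topology MeasureTheory Filter Metric

namespace Pool.Agent.X150.QE

theorem eLpNorm_dominated {E α : Type*} [NormedAddCommGroup E] [MeasurableSpace α]
    {μ : Measure α} [IsFiniteMeasure μ] {f : ℕ → α → E} (hm : ∀ n, AEStronglyMeasurable (f n) μ)
    {K : ℝ} (hb : ∀ n, ∀ᵐ x ∂μ, ‖f n x‖ ≤ K)
    (ht : ∀ᵐ x ∂μ, Tendsto (fun n => f n x) atTop (𝓝 0)) :
    Tendsto (fun n => eLpNorm (f n) 2 μ) atTop (𝓝 0) := by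
  have e : ∀ n, eLpNorm (f n) 2 μ = (∫⁻ x, ‖f n x‖ₑ ^ (2 : ℝ) ∂μ) ^ (1 / 2 : ℝ) := by
    intro n
    rw [eLpNorm_eq_lintegral_rpow_enorm_toReal two_ne_zero ENNReal.ofNat_ne_top]
    simp
  simp only [e]
  have h1 : Tendsto (fun n => ∫⁻ x, ‖f n x‖ₑ ^ (2 : ℝ) ∂μ) atTop (𝓝 (∫⁻ _, 0 ∂μ)) := by
    refine tendsto_lintegral_of_dominated_convergence' (fun _ => (ENNReal.ofReal K) ^ (2 : ℝ))
      (fun n => (hm n).enorm.pow_const _) (fun n => ?_) ?_ ?_
    · filter_upwards [hb n] with x hx
      refine ENNReal.rpow_le_rpow ?_ (by norm_num)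
      rw [← ofReal_norm]
      exact ENNReal.ofReal_le_ofReal hx
    · rw [lintegral_const]
      exact ENNReal.mul_ne_top (ENNReal.rpow_ne_top_of_nonneg (by norm_num) ENNReal.ofReal_ne_top)
        (measure_ne_top _ _)
    · filter_upwards [ht] with x hx
      have h2 : Tendsto (fun n => ‖f n x‖ₑ) atTop (𝓝 0) := by
        have := (continuous_enorm.tendsto (0 : E)).comp hx
        simpa [Function.comp_def] using this
      have h3 := (ENNReal.continuous_rpow_const (y := (2 : ℝ))).tendsto (0 : ENNReal)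
      have h4 := h3.comp h2
      simpa [Function.comp_def] using h4
  rw [lintegral_zero] at h1
  have h3 := (ENNReal.continuous_rpow_const (y := (1 / 2 : ℝ))).tendsto (0 : ENNReal)
  have h4 := h3.comp h1
  simpa [Function.comp_def] using h4

/-- the derivative of the truncation -/
noncomputable def rho (ε s : ℝ) : ℝ := min 1 (max 0 (s / ε - 1))

/-- the truncation -/
noncomputable def chi (ε t : ℝ) : ℝ := ∫ s in (0 : ℝ)..t, rho ε s

theorem continuous_rho (ε : ℝ) : Continuous (rho ε) := by unfold rho; fun_prop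

theorem rho_nonneg (ε s : ℝ) : 0 ≤ rho ε s := le_min zero_le_one (le_max_left _ _)

theorem rho_le_one (ε s : ℝ) : rho ε s ≤ 1 := min_le_left _ _

theorem rho_zero {ε s : ℝ} (hε : 0 < ε) (hs : s ≤ ε) : rho ε s = 0 := by
  have h : s / ε - 1 ≤ 0 := by
    rw [sub_nonpos, div_le_one hε]; exact hs
  rw [rho, max_eq_left h, min_eq_right zero_le_one]

theorem rho_one {ε s : ℝ} (hε : 0 < ε) (hs : 2 * ε ≤ s) : rho ε s = 1 := by
  have h : 1 ≤ s / ε - 1 := by
    have : 2 ≤ s / ε := by rw [le_div_iff₀ hε]; exact hs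
    linarith
  rw [rho, max_eq_right (zero_le_one.trans h), min_eq_left h]

theorem hasDerivAt_chi (ε t : ℝ) : HasDerivAt (chi ε) (rho ε t) t :=
  intervalIntegral.integral_hasDerivAt_right ((continuous_rho ε).intervalIntegrable _ _)
    ((continuous_rho ε).stronglyMeasurableAtFilter _ _) (continuous_rho ε).continuousAt

theorem continuous_chi (ε : ℝ) : Continuous (chi ε) :=
  continuous_iff_continuousAt.2 fun t => (hasDerivAt_chi ε t).continuousAt

theorem chi_zero {ε t : ℝ} (hε : 0 < ε) (ht : t ≤ ε) : chi ε t = 0 := by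
  unfold chi
  refine intervalIntegral.integral_zero_ae (ae_of_all _ fun s hs => rho_zero hε ?_)
  rcases le_total 0 t with h | h
  · rw [uIoc_of_le h] at hs; exact hs.2.trans ht
  · rw [uIoc_of_ge h] at hs; exact hs.2.trans hε.le

theorem chi_near {ε t : ℝ} (hε : 0 < ε) (ht : 0 ≤ t) : |chi ε t - t| ≤ 2 * ε := by
  have hle : ∀ t : ℝ, 0 ≤ t → 0 ≤ chi ε t ∧ chi ε t ≤ t := by
    intro t ht
    constructor
    · exact intervalIntegral.integral_nonneg (μ := volume) ht fun s _ => rho_nonneg ε s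
    · have := intervalIntegral.integral_mono_on (μ := volume) ht
        ((continuous_rho ε).intervalIntegrable 0 t)
        ((continuous_const (y := (1 : ℝ))).intervalIntegrable 0 t) fun s _ => rho_le_one ε s
      simpa [chi] using this
  rcases le_total t (2 * ε) with h | h
  · have := hle t ht
    rw [abs_sub_comm, abs_of_nonneg (by linarith [this.2])]
    linarith [this.1]
  · have h1 : chi ε t = chi ε (2 * ε) + (t - 2 * ε) := by
      unfold chi
      rw [← intervalIntegral.integral_add_adjacent_intervals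
        ((continuous_rho ε).intervalIntegrable (μ := volume) 0 (2 * ε))
        ((continuous_rho ε).intervalIntegrable (μ := volume) (2 * ε) t)]
      congr 1
      rw [intervalIntegral.integral_congr (g := fun _ => (1 : ℝ))]
      · simp
      · intro s hs
        rw [uIcc_of_le h] at hs
        exact rho_one hε hs.1
    have := hle (2 * ε) (by linarith)
    rw [h1, abs_le]
    constructor <;> linarith [this.1, this.2]

variable {S : ℝ} {w dw : ℝ → ℝ}

/-- the radial function -/
noncomputable def rf (w : ℝ → ℝ) (z : ℂ) : ℝ := w (Real.log ‖z‖)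

theorem hasGradientAt_log {z : ℂ} (hz : z ≠ 0) :
    HasFDerivAt (fun z : ℂ => Real.log ‖z‖) ((‖z‖ ^ 2)⁻¹ • innerSL ℝ z) z := by
  have h0 : 0 < ‖z‖ := norm_pos_iff.2 hz
  have h1 := (hasStrictFDerivAt_norm_sq z).hasFDerivAt
  have h2 := (h1.log (pow_pos h0 2).ne').const_mul (1 / 2 : ℝ)
  have e1 : (fun z : ℂ => (1 / 2 : ℝ) * Real.log (‖z‖ ^ 2)) = fun z : ℂ => Real.log ‖z‖ := by
    funext y
    rw [Real.log_pow]
    push_cast
    ring
  rw [e1] at h2
  refine h2.congr_fderiv ?_
  ext v
  simp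
  ring

theorem hasFDerivAt_rf {z : ℂ} (hz : z ∈ ann (Real.exp S))
    (hw : HasDerivAt w (dw (Real.log ‖z‖)) (Real.log ‖z‖)) :
    HasFDerivAt (rf w) (InnerProductSpace.toDual ℝ ℂ (rg dw z)) z := by
  have h0 : z ≠ 0 := by
    rintro rfl
    have := hz.1
    rw [norm_zero] at this
    linarith
  have h1 := hw.comp_hasFDerivAt z (hasGradientAt_log h0)
  refine h1.congr_fderiv ?_
  rw [rg, map_smul, smul_smul, div_eq_mul_inv]
  rfl

theorem continuous_rf (hc : Continuous w) (h0 : ∀ s ≤ 0, w s = 0) : Continuous (rf w) := by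
  rw [continuous_iff_continuousAt]
  intro z
  by_cases hz : z = 0
  · have h1 : rf w =ᶠ[𝓝 z] fun _ => 0 := by
      have h2 : ∀ᶠ y : ℂ in 𝓝 z, ‖y‖ < 1 :=
        (continuous_norm.tendsto z).eventually (Iio_mem_nhds (by simp [hz]))
      filter_upwards [h2] with y hy
      exact h0 _ (Real.log_nonpos (norm_nonneg _) hy.le)
    exact (continuousAt_const (y := (0 : ℝ))).congr h1.symm
  · exact hc.continuousAt.comp (Real.continuousAt_log (norm_ne_zero_iff.2 hz) |>.comp
      continuous_norm.continuousAt)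

theorem rf_out (h0 : ∀ s ≤ 0, w s = 0) (h1 : ∀ s, S ≤ s → w s = 0) {z : ℂ}
    (hz : z ∉ ann (Real.exp S)) : rf w z = 0 := by
  by_cases h2 : 1 < ‖z‖
  · have h3 : Real.exp S ≤ ‖z‖ := not_lt.1 fun h => hz ⟨h2, h⟩
    exact h1 _ (by rw [← Real.log_exp S]; exact Real.log_le_log (Real.exp_pos S) h3)
  · exact h0 _ (Real.log_nonpos (norm_nonneg _) (not_lt.1 h2))

theorem test_chi (hc : Continuous w) (hdc : Continuous dw)
    (hd : ∀ s ∈ Ioo 0 S, HasDerivAt w (dw s) s) (h0 : ∀ s ≤ 0, w s = 0)
    (h1 : ∀ s, S ≤ s → w s = 0) {ε : ℝ} (hε : 0 < ε) :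
    IsTest (ann (Real.exp S)) (fun z => chi ε (rf w z)) ∧
      ∀ z ∈ ann (Real.exp S), gradient (fun z => chi ε (rf w z)) z = rho ε (rf w z) • rg dw z := by
  have hW := continuous_rf hc h0
  have hder : ∀ z ∈ ann (Real.exp S), HasFDerivAt (fun z => chi ε (rf w z))
      (rho ε (rf w z) • InnerProductSpace.toDual ℝ ℂ (rg dw z)) z := fun z hz =>
    (hasDerivAt_chi ε _).comp_hasFDerivAt z (hasFDerivAt_rf hz (hd _ (log_mem hz)))
  have hsupp : tsupport (fun z => chi ε (rf w z)) ⊆ {z | ε ≤ rf w z} := by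
    refine closure_minimal ?_ (isClosed_le continuous_const hW)
    intro z hz
    by_contra h
    exact hz (chi_zero hε (not_le.1 h).le)
  have hsub : {z | ε ≤ rf w z} ⊆ ann (Real.exp S) := by
    intro z hz
    by_contra h
    have h2 : ε ≤ rf w z := hz
    rw [rf_out h0 h1 h] at h2
    linarith
  refine ⟨⟨?_, ?_, hsupp.trans hsub⟩, ?_⟩
  · rw [contDiff_iff_contDiffAt]
    intro z
    by_cases hz : z ∈ ann (Real.exp S)
    · rw [contDiffAt_one_iff]
      refine ⟨_, ann (Real.exp S), (isOpen_ann _).mem_nhds hz, ?_, hder⟩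
      have hrg : ContinuousOn (rg dw) (ann (Real.exp S)) := by
        unfold rg
        have hne : ∀ y ∈ ann (Real.exp S), ‖y‖ ≠ 0 := fun y hy => by
          have := hy.1; positivity
        have hlog : ContinuousOn (fun y : ℂ => Real.log ‖y‖) (ann (Real.exp S)) :=
          Real.continuousOn_log.comp continuous_norm.continuousOn fun y hy => hne y hy
        exact ((hdc.comp_continuousOn hlog).div (continuous_norm.pow 2).continuousOn
          fun y hy => pow_ne_zero 2 (hne y hy)).smul continuousOn_id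
      exact ((continuous_rho ε).comp hW).continuousOn.smul
        ((InnerProductSpace.toDual ℝ ℂ).continuous.comp_continuousOn hrg)
    · have h2 : ∀ᶠ y in 𝓝 z, rf w y < ε := by
        refine (hW.tendsto z).eventually (Iio_mem_nhds ?_)
        rw [rf_out h0 h1 hz]; exact hε
      have h3 : (fun z => chi ε (rf w z)) =ᶠ[𝓝 z] fun _ => 0 := by
        filter_upwards [h2] with y hy
        exact chi_zero hε hy.le
      exact contDiffAt_const.congr_of_eventuallyEq h3
  · refine HasCompactSupport.of_support_subset_isCompact (K := closedBall 0 (Real.exp S) ∩ {z | ε ≤ rf w z})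
      ((isCompact_closedBall _ _).inter_right (isClosed_le continuous_const hW)) ?_
    intro z hz
    have h2 := hsupp (subset_tsupport _ hz)
    refine ⟨?_, h2⟩
    rw [mem_closedBall, dist_zero_right]
    exact (hsub h2).2.le
  · intro z hz
    rw [gradient, (hder z hz).fderiv, map_smul, LinearIsometryEquiv.symm_apply_apply]

theorem inH10_rf (hc : Continuous w) (hdc : Continuous dw)
    (hd : ∀ s ∈ Ioo 0 S, HasDerivAt w (dw s) s) (h0 : ∀ s ≤ 0, w s = 0)
    (h1 : ∀ s, S ≤ s → w s = 0) (hpos : ∀ s ∈ Ioo 0 S, 0 < w s) :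
    InH10 (ann (Real.exp S)) (rf w) (rg dw) := by
  have hW := continuous_rf hc h0
  obtain ⟨A, hA⟩ := (isCompact_Icc (a := (0 : ℝ)) (b := S)).exists_bound_of_continuousOn
    hdc.continuousOn
  obtain ⟨B, hB⟩ := (isCompact_Icc (a := (0 : ℝ)) (b := S)).exists_bound_of_continuousOn
    hc.continuousOn
  have hWpos : ∀ z ∈ ann (Real.exp S), 0 < rf w z := fun z hz => hpos _ (log_mem hz)
  have hεp : ∀ n : ℕ, (0 : ℝ) < 1 / ((n : ℝ) + 1) := fun n => Nat.one_div_pos_of_nat
  have hεl : ∀ n : ℕ, (1 : ℝ) / ((n : ℝ) + 1) ≤ 1 := fun n => by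
    rw [div_le_one (by positivity)]
    linarith [(Nat.cast_nonneg n : (0 : ℝ) ≤ n)]
  have hεt := tendsto_one_div_add_atTop_nhds_zero_nat (𝕜 := ℝ)
  refine ⟨?_, memLp_rg hdc, fun n z => chi (1 / ((n : ℝ) + 1)) (rf w z),
    fun n => (test_chi hc hdc hd h0 h1 (hεp n)).1, ?_, ?_⟩
  · refine memLp_bdd (K := B) hW.measurable.aestronglyMeasurable fun z hz => ?_
    exact hB _ (Ioo_subset_Icc_self (log_mem hz))
  · refine eLpNorm_dominated (K := 2) (fun n => ?_) (fun n => ?_) ?_
    · exact (((continuous_chi _).comp hW).sub hW).aestronglyMeasurable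
    · refine (ae_restrict_mem (measurableSet_ann _)).mono fun z hz => ?_
      have := chi_near (hεp n) (hWpos z hz).le
      simp only [Pi.sub_apply, Real.norm_eq_abs]
      refine this.trans ?_
      linarith [hεl n]
    · refine (ae_restrict_mem (measurableSet_ann _)).mono fun z hz => ?_
      rw [tendsto_zero_iff_norm_tendsto_zero]
      refine squeeze_zero (fun _ => norm_nonneg _)
        (fun n => chi_near (hεp n) (hWpos z hz).le) ?_
      simpa using hεt.const_mul 2
  · refine eLpNorm_dominated (K := A) (fun n => ?_) (fun n => ?_) ?_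
    · exact (memLp_grad (test_chi hc hdc hd h0 h1 (hεp n)).1).1.sub
        (measurable_rg hdc.measurable).aestronglyMeasurable
    · refine (ae_restrict_mem (measurableSet_ann _)).mono fun z hz => ?_
      simp only [Pi.sub_apply]
      rw [(test_chi hc hdc hd h0 h1 (hεp n)).2 z hz]
      have e : rho (1 / ((n : ℝ) + 1)) (rf w z) • rg dw z - rg dw z =
          (rho (1 / ((n : ℝ) + 1)) (rf w z) - 1) • rg dw z := by rw [sub_smul, one_smul]
      rw [e, norm_smul, norm_rg hz.1, Real.norm_eq_abs]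
      have k1 := hA _ (Ioo_subset_Icc_self (log_mem hz))
      rw [Real.norm_eq_abs] at k1
      have k2 : |rho (1 / ((n : ℝ) + 1)) (rf w z) - 1| ≤ 1 := by
        rw [abs_le]
        constructor <;> linarith [rho_nonneg (1 / ((n : ℝ) + 1)) (rf w z),
          rho_le_one (1 / ((n : ℝ) + 1)) (rf w z)]
      have k3 := (div_le_self (abs_nonneg (dw (Real.log ‖z‖))) hz.1.le).trans k1
      have k4 : 0 ≤ |dw (Real.log ‖z‖)| / ‖z‖ := by positivity
      nlinarith [abs_nonneg (rho (1 / ((n : ℝ) + 1)) (rf w z) - 1)]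
    · refine (ae_restrict_mem (measurableSet_ann _)).mono fun z hz => ?_
      have hp := hWpos z hz
      refine tendsto_const_nhds.congr' ?_
      have h2 : ∀ᶠ n : ℕ in atTop, (1 : ℝ) / ((n : ℝ) + 1) < rf w z / 2 :=
        hεt.eventually (Iio_mem_nhds (by positivity))
      filter_upwards [h2] with n hn
      simp only [Pi.sub_apply]
      rw [(test_chi hc hdc hd h0 h1 (hεp n)).2 z hz, rho_one (hεp n) (by linarith), one_smul,
        sub_self]

end Pool.Agent.X150.QE
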