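import Pool.Agent.X150.QE.Defs

/-! The weak form of `ΔU = U''/|z|²` for radial functions `U(log |z|)`. -/

set_option autoImplicit false
open Set Topology MeasureTheory Filter Metric

namespace Pool.Agent.X150.QE

theorem measurableSet_ann (R : ℝ) : MeasurableSet (ann R) :=
  (isOpen_lt continuous_const continuous_norm).inter
    (isOpen_lt continuous_norm continuous_const) |>.measurableSet

theorem isOpen_ann (R : ℝ) : IsOpen (ann R) :=
  (isOpen_lt continuous_const continuous_norm).inter (isOpen_lt continuous_norm continuous_const)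

/-- one dimensional integration by parts, with exceptional points -/
theorem ibp {a b : ℝ} (hab : a ≤ b) {N : Set ℝ} (hN : N.Countable) {f f' g g' : ℝ → ℝ}
    (hf : ContinuousOn f (Icc a b)) (hg : ContinuousOn g (Icc a b))
    (hf' : ∀ s ∈ Ioo a b, s ∉ N → HasDerivAt f (f' s) s)
    (hg' : ∀ s ∈ Ioo a b, s ∉ N → HasDerivAt g (g' s) s) (ga : g a = 0) (gb : g b = 0)
    (hi : IntervalIntegrable (fun s => f' s * g s + f s * g' s) volume a b) :
    ∫ s in a..b, (f' s * g s + f s * g' s) = 0 := by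
  rw [integral_eq_of_hasDerivAt_off_countable_of_le (fun s => f s * g s) _ hab hN (hf.mul hg)
    (fun s hs => (hf' s hs.1 hs.2).mul (hg' s hs.1 hs.2)) hi, ga, gb]
  ring

theorem norm_pc {r θ : ℝ} (hr : 0 < r) : ‖(r * (Real.cos θ + Real.sin θ * Complex.I) : ℂ)‖ = r := by
  have h1 : ‖(Real.cos θ + Real.sin θ * Complex.I : ℂ)‖ = 1 := by
    have : (Real.cos θ + Real.sin θ * Complex.I : ℂ) = Complex.exp (θ * Complex.I) := by
      rw [Complex.exp_mul_I]; push_cast; ring
    rw [this, Complex.norm_exp_ofReal_mul_I]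
  rw [norm_mul, h1, mul_one, Complex.norm_real, Real.norm_eq_abs, abs_of_pos hr]

variable {S : ℝ} {N : Set ℝ} {dw ddw : ℝ → ℝ} {φ : ℂ → ℝ}

/-- the integrand of the weak equation -/
noncomputable def wf (S : ℝ) (dw ddw : ℝ → ℝ) (φ : ℂ → ℝ) (z : ℂ) : ℝ :=
  (ann (Real.exp S)).indicator (fun z => fderiv ℝ φ z ((dw (Real.log ‖z‖) / ‖z‖ ^ 2) • z) +
    ddw (Real.log ‖z‖) / ‖z‖ ^ 2 * φ z) z

theorem measurable_wf (hc : Continuous dw) (hm : Measurable ddw) (hφ : ContDiff ℝ 1 φ) :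
    Measurable (wf S dw ddw φ) := by
  refine Measurable.indicator ?_ (measurableSet_ann _)
  have h1 : Measurable fun z : ℂ => Real.log ‖z‖ := Real.measurable_log.comp measurable_norm
  have h2 : Measurable fun z : ℂ => dw (Real.log ‖z‖) := hc.measurable.comp h1
  have h3 : Measurable fun z : ℂ => ddw (Real.log ‖z‖) := hm.comp h1
  have h4 : Measurable φ := hφ.continuous.measurable
  have h5 : (fun z => fderiv ℝ φ z ((dw (Real.log ‖z‖) / ‖z‖ ^ 2) • z)) =
      fun z => (dw (Real.log ‖z‖) / ‖z‖ ^ 2) * fderiv ℝ φ z z := by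
    funext z
    rw [map_smul, smul_eq_mul]
  have h6 : Measurable fun z => fderiv ℝ φ z z :=
    ((hφ.continuous_fderiv one_ne_zero).clm_apply continuous_id).measurable
  refine Measurable.add ?_ ?_
  · rw [h5]
    exact (h2.div (measurable_norm.pow_const 2)).mul h6
  · exact (h3.div (measurable_norm.pow_const 2)).mul h4

theorem bdd_wf (hS : 0 < S) (hc : Continuous dw) {K : ℝ} (hb : ∀ s ∈ Icc 0 S, |ddw s| ≤ K)
    (hφ : IsTest (ann (Real.exp S)) φ) : ∃ K' : ℝ, ∀ z, |wf S dw ddw φ z| ≤ K' := by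
  obtain ⟨A, hA⟩ := (isCompact_Icc (a := (0 : ℝ)) (b := S)).exists_bound_of_continuousOn
    hc.continuousOn
  obtain ⟨Bφ, hBφ⟩ : ∃ B, ∀ z, ‖φ z‖ ≤ B := by
    obtain ⟨B, hB⟩ := hφ.2.1.exists_bound_of_continuousOn hφ.1.continuous.continuousOn
    refine ⟨max B 0, fun z => ?_⟩
    by_cases hz : z ∈ tsupport φ
    · exact (hB z hz).trans (le_max_left _ _)
    · rw [image_eq_zero_of_notMem_tsupport hz, norm_zero]; exact le_max_right _ _
  obtain ⟨Bf, hBf⟩ : ∃ B, ∀ z, ‖fderiv ℝ φ z‖ ≤ B := by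
    have hcs : HasCompactSupport (fderiv ℝ φ) := hφ.2.1.fderiv ℝ
    obtain ⟨B, hB⟩ := hcs.exists_bound_of_continuousOn
      (hφ.1.continuous_fderiv one_ne_zero).continuousOn
    refine ⟨max B 0, fun z => ?_⟩
    by_cases hz : z ∈ tsupport (fderiv ℝ φ)
    · exact (hB z hz).trans (le_max_left _ _)
    · rw [image_eq_zero_of_notMem_tsupport hz, norm_zero]; exact le_max_right _ _
  have hK : 0 ≤ K := (abs_nonneg _).trans (hb 0 ⟨le_rfl, hS.le⟩)
  have hA0 : 0 ≤ A := (norm_nonneg _).trans (hA 0 ⟨le_rfl, hS.le⟩)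
  have hBφ0 : 0 ≤ Bφ := (norm_nonneg _).trans (hBφ 0)
  have hBf0 : 0 ≤ Bf := (norm_nonneg _).trans (hBf 0)
  refine ⟨Bf * (A * Real.exp S) + K * Bφ, fun z => ?_⟩
  unfold wf
  by_cases hz : z ∈ ann (Real.exp S)
  · rw [indicator_of_mem hz]
    obtain ⟨h1, h2⟩ := hz
    have h0 : 0 < ‖z‖ := by linarith
    have hlog : Real.log ‖z‖ ∈ Icc 0 S :=
      ⟨Real.log_nonneg h1.le, by rw [← Real.log_exp S]; exact Real.log_le_log h0 h2.le⟩
    have hn : 1 ≤ ‖z‖ ^ 2 := one_le_pow₀ h1.le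
    refine (abs_add_le _ _).trans (add_le_add ?_ ?_)
    · rw [← Real.norm_eq_abs]
      refine (ContinuousLinearMap.le_opNorm _ _).trans ?_
      refine mul_le_mul (hBf z) ?_ (norm_nonneg _) hBf0
      rw [norm_smul, norm_div, norm_pow, norm_norm]
      refine mul_le_mul ?_ h2.le (norm_nonneg _) hA0
      exact (div_le_self (norm_nonneg _) hn).trans (hA _ hlog)
    · rw [abs_mul, abs_div, abs_of_pos (pow_pos h0 2)]
      refine mul_le_mul ?_ (by rw [← Real.norm_eq_abs]; exact hBφ z) (abs_nonneg _) hK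
      exact (div_le_self (abs_nonneg _) hn).trans (hb _ hlog)
  · rw [indicator_of_notMem hz, abs_zero]
    positivity

end Pool.Agent.X150.QE
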