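import Pool.Agent.X150.QE.Polar

/-! The weak form of `ΔU = U''/|z|²` for radial functions `U(log |z|)`. -/

set_option autoImplicit false
open Set Topology MeasureTheory Filter Metric

namespace Pool.Agent.X150.QE

variable {S : ℝ} {N : Set ℝ} {dw ddw : ℝ → ℝ} {φ : ℂ → ℝ}

/-- the unit vector -/
noncomputable def ev (θ : ℝ) : ℂ := Real.cos θ + Real.sin θ * Complex.I

theorem norm_rev {r : ℝ} (hr : 0 < r) (θ : ℝ) : ‖(r * ev θ : ℂ)‖ = r := norm_pc hr

theorem mem_rev {r : ℝ} (hr : r ∈ Ioo 1 (Real.exp S)) (θ : ℝ) : (r * ev θ : ℂ) ∈ ann (Real.exp S) := by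
  have h : ‖(r * ev θ : ℂ)‖ = r := norm_rev (by linarith [hr.1]) θ
  exact ⟨by rw [h]; exact hr.1, by rw [h]; exact hr.2⟩

theorem wf_rev {r : ℝ} (hr : r ∈ Ioo 1 (Real.exp S)) (θ : ℝ) :
    r * wf S dw ddw φ (r * ev θ) = ddw (Real.log r) * r⁻¹ * φ (r * ev θ) +
      dw (Real.log r) * fderiv ℝ φ (r * ev θ) (ev θ) := by
  have h0 : (0 : ℝ) < r := by linarith [hr.1]
  have h : ‖(r * ev θ : ℂ)‖ = r := norm_rev h0 θ
  unfold wf
  rw [indicator_of_mem (mem_rev hr θ), h]
  have h2 : ((dw (Real.log r) / r ^ 2) • (r * ev θ : ℂ)) = (dw (Real.log r) / r) • ev θ := by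
    rw [← Complex.real_smul, smul_smul]
    congr 1
    field_simp
  rw [h2, map_smul, smul_eq_mul]
  field_simp
  ring

theorem inner_zero (hS : 0 < S) (hN : N.Countable) (hc : Continuous dw) (hm : Measurable ddw)
    {K : ℝ} (hb : ∀ s ∈ Icc 0 S, |ddw s| ≤ K)
    (hd : ∀ s ∈ Ioo 0 S, s ∉ N → HasDerivAt dw (ddw s) s)
    (hφ : IsTest (ann (Real.exp S)) φ) (θ : ℝ) :
    ∫ r in Ioo 1 (Real.exp S), r * wf S dw ddw φ (r * ev θ) = 0 := by
  have hE : (1 : ℝ) ≤ Real.exp S := Real.one_le_exp hS.le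
  have hev : Continuous fun r : ℝ => (r * ev θ : ℂ) := by fun_prop
  have hzero : ∀ r : ℝ, 0 < r → r ∉ Ioo 1 (Real.exp S) → φ (r * ev θ) = 0 := by
    intro r hr hr2
    refine image_eq_zero_of_notMem_tsupport fun hmem => hr2 ?_
    have h1 := hφ.2.2 hmem
    have h : ‖(r * ev θ : ℂ)‖ = r := norm_rev hr θ
    exact ⟨h ▸ h1.1, h ▸ h1.2⟩
  have key : ∫ r in (1 : ℝ)..Real.exp S, (ddw (Real.log r) * r⁻¹ * φ (r * ev θ) +
      dw (Real.log r) * fderiv ℝ φ (r * ev θ) (ev θ)) = 0 := by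
    refine ibp (N := Real.exp '' N) (f := fun r => dw (Real.log r)) (f' := fun r => ddw (Real.log r) * r⁻¹)
      (g := fun r => φ (r * ev θ)) (g' := fun r => fderiv ℝ φ (r * ev θ) (ev θ)) hE (hN.image _)
      ?_ ?_ ?_ ?_ ?_ ?_ ?_
    · refine hc.comp_continuousOn (Real.continuousOn_log.mono ?_)
      intro r hr
      simp only [mem_compl_iff, mem_singleton_iff]
      linarith [hr.1]
    · exact (hφ.1.continuous.comp hev).continuousOn
    · intro r hr hrN
      have h0 : (0 : ℝ) < r := by linarith [hr.1]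
      have h1 : Real.log r ∈ Ioo 0 S := ⟨Real.log_pos hr.1, by
        rw [← Real.log_exp S]; exact Real.log_lt_log h0 hr.2⟩
      have h2 : Real.log r ∉ N := fun h => hrN ⟨_, h, Real.exp_log h0⟩
      exact (hd _ h1 h2).comp r (Real.hasDerivAt_log h0.ne')
    · intro r hr _
      have h1 : HasDerivAt (fun r : ℝ => (r * ev θ : ℂ)) (ev θ) r := by
        have := (Complex.ofRealCLM.hasDerivAt (x := r)).mul_const (ev θ)
        simpa using this
      exact (hφ.1.differentiable one_ne_zero _).hasFDerivAt.comp_hasDerivAt r h1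
    · exact hzero 1 one_pos (fun h => lt_irrefl _ h.1)
    · exact hzero _ (Real.exp_pos S) (fun h => lt_irrefl _ h.2)
    · obtain ⟨K', hK'⟩ := bdd_wf hS hc hb hφ
      rw [intervalIntegrable_iff_integrableOn_Ioo_of_le hE]
      have hmeas : Measurable fun r : ℝ => r * wf S dw ddw φ (r * ev θ) :=
        measurable_id.mul ((measurable_wf hc hm hφ.1).comp hev.measurable)
      have h1 : IntegrableOn (fun r : ℝ => r * wf S dw ddw φ (r * ev θ)) (Ioo 1 (Real.exp S)) := by
        refine Measure.integrableOn_of_bounded (M := Real.exp S * K') (by simp)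
          hmeas.aestronglyMeasurable ?_
        refine (ae_restrict_mem measurableSet_Ioo).mono fun r hr => ?_
        rw [norm_mul, Real.norm_eq_abs, Real.norm_eq_abs, abs_of_pos (by linarith [hr.1])]
        exact mul_le_mul hr.2.le (hK' _) (abs_nonneg _) (Real.exp_pos S).le
      exact h1.congr_fun (fun r hr => wf_rev hr θ) measurableSet_Ioo
  rw [intervalIntegral.integral_of_le hE, integral_Ioc_eq_integral_Ioo] at key
  rw [← key]
  exact setIntegral_congr_fun measurableSet_Ioo fun r hr => wf_rev hr θ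

theorem integral_wf (hS : 0 < S) (hN : N.Countable) (hc : Continuous dw) (hm : Measurable ddw)
    {K : ℝ} (hb : ∀ s ∈ Icc 0 S, |ddw s| ≤ K)
    (hd : ∀ s ∈ Ioo 0 S, s ∉ N → HasDerivAt dw (ddw s) s)
    (hφ : IsTest (ann (Real.exp S)) φ) : ∫ z, wf S dw ddw φ z = 0 := by
  have hE : (1 : ℝ) ≤ Real.exp S := Real.one_le_exp hS.le
  have hpc : Continuous fun p : ℝ × ℝ => (p.1 * ev p.2 : ℂ) := by
    unfold ev; fun_prop
  have hmeas : Measurable fun p : ℝ × ℝ => p.1 * wf S dw ddw φ (p.1 * ev p.2) :=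
    measurable_fst.mul ((measurable_wf hc hm hφ.1).comp hpc.measurable)
  rw [← Complex.integral_comp_polarCoord_symm]
  have h1 : ∫ p in polarCoord.target, p.1 • wf S dw ddw φ (Complex.polarCoord.symm p) =
      ∫ p in (Ioo 1 (Real.exp S)) ×ˢ (Ioo (-Real.pi) Real.pi), p.1 * wf S dw ddw φ (p.1 * ev p.2) := by
    have e1 : ∀ p : ℝ × ℝ, p.1 • wf S dw ddw φ (Complex.polarCoord.symm p) =
        p.1 * wf S dw ddw φ (p.1 * ev p.2) := fun p => by
      simp only [Complex.polarCoord_symm_apply, smul_eq_mul, ev]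
    simp only [e1]
    refine setIntegral_eq_of_subset_of_forall_sdiff_eq_zero polarCoord.open_target.measurableSet
      (prod_mono (fun r hr => lt_trans one_pos hr.1) subset_rfl) ?_
    rintro ⟨r, θ⟩ ⟨⟨hr, hθ⟩, hp⟩
    have h0 : (0 : ℝ) < r := hr
    have h2 : r ∉ Ioo 1 (Real.exp S) := fun h => hp ⟨h, hθ⟩
    have h3 : (r * ev θ : ℂ) ∉ ann (Real.exp S) := fun h => by
      have h4 : ‖(r * ev θ : ℂ)‖ = r := norm_rev h0 θ
      exact h2 ⟨h4 ▸ h.1, h4 ▸ h.2⟩
    have h5 : wf S dw ddw φ (r * ev θ) = 0 := by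
      unfold wf; exact indicator_of_notMem h3 _
    simp only [h5, mul_zero]
  rw [h1, Measure.volume_eq_prod, ← Measure.prod_restrict, integral_prod_symm]
  · have h2 : ∀ θ : ℝ, ∫ r in Ioo 1 (Real.exp S), r * wf S dw ddw φ (r * ev θ) = 0 :=
      fun θ => inner_zero hS hN hc hm hb hd hφ θ
    simp only [h2, integral_zero]
  · obtain ⟨K', hK'⟩ := bdd_wf hS hc hb hφ
    rw [Measure.prod_restrict]
    refine Measure.integrableOn_of_bounded (M := Real.exp S * K') ?_
      hmeas.aestronglyMeasurable ?_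
    · rw [Measure.prod_prod]
      simp [ENNReal.mul_eq_top]
    · refine (ae_restrict_mem (measurableSet_Ioo.prod measurableSet_Ioo)).mono fun p hp => ?_
      rw [norm_mul, Real.norm_eq_abs, Real.norm_eq_abs, abs_of_pos (by linarith [hp.1.1])]
      exact mul_le_mul hp.1.2.le (hK' _) (abs_nonneg _) (Real.exp_pos S).le

end Pool.Agent.X150.QE
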