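import Pool.Agent.X150.QE.Glue

/-! The Riccati equation for `u₀` on the second zone. -/

set_option autoImplicit false
open Set Topology MeasureTheory Filter Metric
open scoped NNReal

namespace Pool.Agent.X150.QE

theorem continuousOn_WD : Continuous WD := by unfold WD PU DV PV DU; fun_prop

theorem continuousOn_CII : ContinuousOn CII (Icc 0 1) :=
  (by unfold NC; fun_prop : Continuous NC).continuousOn.div continuousOn_WD.continuousOn
    fun t ht => (WD_pos ht).ne'

theorem continuousOn_MII : ContinuousOn MII (Icc 0 1) :=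
  (by unfold NM; fun_prop : Continuous NM).continuousOn.div continuousOn_WD.continuousOn
    fun t ht => (WD_pos ht).ne'

theorem pl_mem {f : ℝ → ℝ → ℝ} {tmin tmax : ℝ} {t₀ : Icc tmin tmax} {x₀ x : ℝ} {a r L K : ℝ≥0}
    (hf : IsPicardLindelof f t₀ x₀ a r L K) (hx : x ∈ closedBall x₀ r) :
    ∃ α : ℝ → ℝ, α t₀ = x ∧ (∀ t, α t ∈ closedBall x₀ a) ∧
      ∀ t ∈ Icc tmin tmax, HasDerivWithinAt α (f t (α t)) (Icc tmin tmax) t := by
  obtain ⟨α, hα⟩ := ODE.FunSpace.exists_isFixedPt_next hf hx
  refine ⟨α.compProj, by rw [ODE.FunSpace.compProj_val, ← hα, ODE.FunSpace.next_apply₀],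
    fun t => α.compProj_mem_closedBall hf.mul_max_le, fun t ht ↦ ?_⟩
  apply ODE.hasDerivWithinAt_picard_Icc t₀.2 hf.continuousOn_uncurry
    α.continuous_compProj.continuousOn (fun _ ht' ↦ α.compProj_mem_closedBall hf.mul_max_le)
    x ht |>.congr_of_mem _ ht
  intro t' ht'
  nth_rw 1 [← hα]
  rw [ODE.FunSpace.compProj_of_mem ht', ODE.FunSpace.next_apply]

theorem ricc : ∃ q : ℝ → ℝ, q 1 = 0 ∧ (∀ t, |q t| ≤ 1 / 8) ∧
    ∀ t ∈ Icc (0 : ℝ) 1, HasDerivWithinAt q (MII t * q t ^ 2 - CII t / 2) (Icc 0 1) t := by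
  have hb : ∀ x : ℝ, x ∈ closedBall (0 : ℝ) ((1 / 8 : ℝ≥0) : ℝ) → |x| ≤ 1 / 8 := by
    intro x hx
    rw [mem_closedBall, dist_zero_right, Real.norm_eq_abs] at hx
    simpa using hx
  have pl : IsPicardLindelof (fun t x => MII t * x ^ 2 - CII t / 2)
      (⟨1, by norm_num⟩ : Icc (0 : ℝ) 1) 0 (1 / 8) 0 (1 / 8) 3 := by
    refine ⟨?_, ?_, ?_, ?_⟩
    · intro t ht
      refine LipschitzOnWith.of_dist_le_mul fun x hx y hy => ?_
      have h1 := hb x hx
      have h2 := hb y hy
      rw [Real.dist_eq, Real.dist_eq]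
      have e : MII t * x ^ 2 - CII t / 2 - (MII t * y ^ 2 - CII t / 2) =
          MII t * (x + y) * (x - y) := by ring
      rw [e, abs_mul]
      refine mul_le_mul_of_nonneg_right ?_ (abs_nonneg _)
      rw [abs_mul, abs_of_nonneg (by linarith [le_MII ht])]
      have h3 : |x + y| ≤ 1 / 4 := (abs_add_le _ _).trans (by linarith)
      have h4 := MII_le ht
      have h5 := le_MII ht
      have : MII t * |x + y| ≤ 6 * (1 / 4) :=
        mul_le_mul h4 h3 (abs_nonneg _) (by norm_num)
      push_cast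
      linarith
    · intro x _
      exact (continuousOn_MII.mul continuousOn_const).sub (continuousOn_CII.div_const 2)
    · intro t ht x hx
      have h1 := hb x hx
      have h2 := MII_le ht
      have h3 := le_MII ht
      have h4 := CII_le ht
      have h5 := CII_pos ht
      have h6 : x ^ 2 ≤ 1 / 64 := by
        have := pow_le_pow_left₀ (abs_nonneg x) h1 2
        rw [sq_abs] at this
        linarith
      have h7 : 0 ≤ MII t * x ^ 2 := mul_nonneg (by linarith) (sq_nonneg _)
      have h8 : MII t * x ^ 2 ≤ 6 * (1 / 64) := mul_le_mul h2 h6 (sq_nonneg _) (by norm_num)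
      rw [Real.norm_eq_abs, abs_le]
      constructor
      · push_cast; linarith
      · push_cast; linarith
    · push_cast
      norm_num
  obtain ⟨q, h1, h2, h3⟩ := pl_mem pl (mem_closedBall_self le_rfl)
  exact ⟨q, h1, fun t => hb _ (h2 t), h3⟩

end Pool.Agent.X150.QE
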