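import Pool.Agent.X150.QE.Halves

/-! The solution `u₀` of the problem with `λ = 0`. -/

set_option autoImplicit false
open Set Topology MeasureTheory Filter Metric

namespace Pool.Agent.X150.QE

theorem exists_u0 : ∃ f d : ℝ → ℝ, Arc 0 0 mm CC MM HH f d ∧ f 0 = 0 ∧ 0 < f mm ∧ d mm = 0 := by
  obtain ⟨q, q1, qb, hq⟩ := ricc
  have hL := LL_pos
  have hqc : Continuous fun s => q (cl 1 s) :=
    cont_cl one_pos fun t ht => (hq t ht).continuousWithinAt
  set Q : ℝ → ℝ := fun s => q (cl 1 s) with hQ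
  have hQb : ∀ t, |Q t| ≤ 1 / 8 := fun t => qb _
  have hQ1 : Q 1 = 0 := by
    have : cl 1 1 = 1 := by unfold cl; norm_num
    rw [hQ]; simp only [this, q1]
  have hQd : ∀ t ∈ Ioo (0 : ℝ) 1, HasDerivAt Q (MII t * Q t ^ 2 - CII t / 2) t := by
    intro t ht
    have h1 := (hq t (Ioo_subset_Icc_self ht)).hasDerivAt (Icc_mem_nhds ht.1 ht.2)
    have h2 : Q t = q t := by rw [hQ]; simp only [cl_self ht]
    rw [h2]
    exact h1.congr_of_eventuallyEq (cl_ev ht q)
  set b : ℝ := (1 - Q 0) / (1 + Q 0) with hb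
  have hQ0 := abs_le.1 (hQb 0)
  have hden : 0 < 1 + Q 0 := by linarith [hQ0.1]
  have hb1 : 7 / 9 ≤ b := by
    rw [hb, le_div_iff₀ hden]; linarith [hQ0.2]
  have hb2 : 3 / 4 ≤ b := by linarith
  have hdI : dI b s1 = - Q 0 := by
    rw [dI_s1 hb2, hb]
    field_simp
    ring
  set y : ℝ := wI b s1 with hy
  have hy1 : 1 / 8 < y := by
    rw [hy, wI_s1 hb2]
    have h1 := Real.one_sub_inv_le_log_of_pos (show 0 < 1 + b by linarith)
    have h2 : (1 + b)⁻¹ ≤ (16 / 9 : ℝ)⁻¹ := inv_anti₀ (by norm_num) (by linarith)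
    have h3 : 7 / 16 ≤ Real.log (1 + b) := by
      refine le_trans ?_ h1
      norm_num at h2 ⊢
      linarith
    have h4 : 5 / 8 < Real.log (1 + b) / LL := by
      rw [lt_div_iff₀ hL]
      linarith [LL_lt]
    linarith
  have hF : ∀ t, HasDerivAt (fun t => y - ∫ x in (0 : ℝ)..t, Q x) (-Q t) t := fun t =>
    (intervalIntegral.integral_hasDerivAt_right (hqc.intervalIntegrable _ _)
      (hqc.stronglyMeasurableAtFilter _ _) hqc.continuousAt).const_sub y
  have hFc : Continuous fun t => y - ∫ x in (0 : ℝ)..t, Q x :=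
    continuous_iff_continuousAt.2 fun t => (hF t).continuousAt
  have hFb : ∀ t ∈ Icc (0 : ℝ) 1, 0 < y - ∫ x in (0 : ℝ)..t, Q x := by
    intro t ht
    have h1 : ‖∫ x in (0 : ℝ)..t, Q x‖ ≤ 1 / 8 * |t - 0| :=
      intervalIntegral.norm_integral_le_of_norm_le_const fun x _ => hQb x
    rw [sub_zero, abs_of_nonneg ht.1, Real.norm_eq_abs] at h1
    have h2 := (abs_le.1 h1).2
    linarith [ht.2]
  have h2 : Arc 0 s1 s2 CC MM HH (fun s => y - ∫ x in (0 : ℝ)..(s - s1), Q x)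
      (fun s => - Q (s - s1)) := by
    refine arcII (f := fun t => y - ∫ x in (0 : ℝ)..t, Q x) (d := fun t => - Q t)
      (f'' := fun t => -(MII t * Q t ^ 2 - CII t / 2)) hFc.continuousOn hqc.neg.continuousOn
      (fun t _ => hF t) (fun t ht => (hQd t ht).neg)
      (fun t ht => hFb t (Ioo_subset_Icc_self ht)) (fun t _ => by ring)
  have hz := hFb 1 ⟨zero_le_one, le_rfl⟩
  refine ⟨_, _, leftArc (arcI 0 hb2) h2 (arcIII_const 0 hz) ?_ ?_ ?_ ?_ ?_ ?_, ?_, ?_, ?_⟩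
  · simp [hy]
  · simp [hdI]
  · linarith
  · rw [wIII_const, s2_sub]
  · rw [dIII_const, s2_sub, hQ1, neg_zero]
  · rw [s2_sub]; exact hz
  · rw [gl3_zero, wI_zero]
  · rw [gl3_mm, wIII_const]; exact hz
  · rw [gl3_mm, dIII_const]

end Pool.Agent.X150.QE
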