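import Pool.Agent.X150.QE.Data

/-! The solutions on the three zones. -/

set_option autoImplicit false
open Set Topology MeasureTheory Filter Metric

namespace Pool.Agent.X150.QE

variable {lam b s k y : ℝ}

/-- solution on the first zone -/
noncomputable def wI (b s : ℝ) : ℝ :=
  Real.log (Real.cos (LL * s) + b * Real.sin (LL * s)) / LL
/-- its derivative -/
noncomputable def dI (b s : ℝ) : ℝ :=
  (-Real.sin (LL * s) + b * Real.cos (LL * s)) / (Real.cos (LL * s) + b * Real.sin (LL * s))

theorem LLs (h : s ∈ Icc 0 s1) : 0 ≤ LL * s ∧ LL * s ≤ Real.pi / 4 := by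
  refine ⟨mul_nonneg LL_pos.le h.1, ?_⟩
  rw [← LL_s1]
  exact mul_le_mul_of_nonneg_left h.2 LL_pos.le

theorem sin_le_cos (h : s ∈ Icc 0 s1) : Real.sin (LL * s) ≤ Real.cos (LL * s) := by
  obtain ⟨h0, h1⟩ := LLs h
  have hp := Real.pi_pos
  have h2 : Real.sin (LL * s) ≤ Real.sin (Real.pi / 4) :=
    Real.sin_le_sin_of_le_of_le_pi_div_two (by linarith) (by linarith) h1
  have h3 : Real.cos (Real.pi / 4) ≤ Real.cos (LL * s) :=
    Real.cos_le_cos_of_nonneg_of_le_pi h0 (by linarith) h1
  rw [Real.sin_pi_div_four] at h2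
  rw [Real.cos_pi_div_four] at h3
  exact h2.trans h3

theorem sin_nn (h : s ∈ Icc 0 s1) : 0 ≤ Real.sin (LL * s) := by
  obtain ⟨h0, h1⟩ := LLs h
  exact Real.sin_nonneg_of_nonneg_of_le_pi h0 (by linarith [Real.pi_pos])

theorem den_pos (hb : 3 / 4 ≤ b) (h : s ∈ Icc 0 s1) :
    0 < Real.cos (LL * s) + b * Real.sin (LL * s) := by
  have h1 := sin_le_cos h
  have h2 := sin_nn h
  have h3 := Real.sin_sq_add_cos_sq (LL * s)
  have h4 : 0 < Real.cos (LL * s) := by
    by_contra hc
    have : Real.sin (LL * s) = 0 := by linarith [not_lt.1 hc]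
    have h5 : Real.cos (LL * s) = 0 := by linarith [not_lt.1 hc]
    rw [this, h5] at h3
    norm_num at h3
  have : 0 ≤ b * Real.sin (LL * s) := mul_nonneg (by linarith) h2
  linarith

theorem den_gt (hb : 3 / 4 ≤ b) (h : s ∈ Ioc 0 s1) :
    1 < Real.cos (LL * s) + b * Real.sin (LL * s) := by
  have h1 := sin_le_cos ⟨h.1.le, h.2⟩
  have h3 := Real.sin_sq_add_cos_sq (LL * s)
  have h2 : 0 < Real.sin (LL * s) := by
    obtain ⟨h0, h1⟩ := LLs (s := s) ⟨h.1.le, h.2⟩
    exact Real.sin_pos_of_pos_of_lt_pi (mul_pos LL_pos h.1) (by linarith [Real.pi_pos])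
  have h5 : 3 / 4 * Real.sin (LL * s) ≤ b * Real.sin (LL * s) :=
    mul_le_mul_of_nonneg_right hb h2.le
  by_contra hc
  have h6 : 3 / 4 * Real.sin (LL * s) ≤ 1 - Real.cos (LL * s) := by linarith [not_lt.1 hc]
  have h7 : Real.sin (LL * s) ≤ 1 := Real.sin_le_one _
  nlinarith [mul_le_mul_of_nonneg_right h6 (by linarith : 0 ≤ 1 + Real.cos (LL * s))]

theorem arcI (lam : ℝ) (hb : 3 / 4 ≤ b) : Arc lam 0 s1 CC MM HH (wI b) (dI b) := by
  have hL := LL_pos
  have c1 : Continuous fun s => Real.cos (LL * s) + b * Real.sin (LL * s) := by fun_prop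
  have c2 : Continuous fun s => -Real.sin (LL * s) + b * Real.cos (LL * s) := by fun_prop
  refine ⟨?_, ?_, ?_, ∅, countable_empty, ?_⟩
  · exact (c1.continuousOn.log fun s hs => (den_pos hb hs).ne').div_const _
  · exact c2.continuousOn.div c1.continuousOn fun s hs => (den_pos hb hs).ne'
  · intro s hs
    exact div_pos (Real.log_pos (den_gt hb (Ioo_subset_Ioc_self hs))) hL
  · intro s hs _
    have hd := den_pos hb (Ioo_subset_Icc_self hs)
    obtain ⟨e1, e2, e3⟩ := zI hs
    have h0 : HasDerivAt (fun s : ℝ => LL * s) LL s := by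
      simpa using (hasDerivAt_id s).const_mul LL
    have hc := h0.cos
    have hs' := h0.sin
    have k1 : HasDerivAt (fun s => Real.cos (LL * s) + b * Real.sin (LL * s))
        (LL * (-Real.sin (LL * s) + b * Real.cos (LL * s))) s :=
      (hc.add (hs'.const_mul b)).congr_deriv (by ring)
    have k2 : HasDerivAt (fun s => -Real.sin (LL * s) + b * Real.cos (LL * s))
        (-(LL * (Real.cos (LL * s) + b * Real.sin (LL * s)))) s :=
      (hs'.neg.add (hc.const_mul b)).congr_deriv (by ring)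
    constructor
    · refine ((k1.log hd.ne').div_const LL).congr_deriv ?_
      unfold dI
      field_simp
    · refine (k2.div k1 hd.ne').congr_deriv ?_
      rw [e1, e2, e3]
      unfold dI
      field_simp
      ring

theorem wI_zero (b : ℝ) : wI b 0 = 0 := by simp [wI]

theorem log_half_sqrt : Real.log (√2 / 2) = -(LL / 2) := by
  rw [Real.log_div (by positivity) (by norm_num), Real.log_sqrt (by norm_num)]
  unfold LL; ring

theorem wI_s1 (hb : 3 / 4 ≤ b) : wI b s1 = Real.log (1 + b) / LL - 1 / 2 := by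
  unfold wI
  rw [LL_s1, Real.cos_pi_div_four, Real.sin_pi_div_four]
  have e : √2 / 2 + b * (√2 / 2) = (1 + b) * (√2 / 2) := by ring
  rw [e, Real.log_mul (by linarith) (by positivity), log_half_sqrt]
  have := LL_pos
  field_simp
  ring

theorem dI_s1 (hb : 3 / 4 ≤ b) : dI b s1 = (b - 1) / (b + 1) := by
  unfold dI
  rw [LL_s1, Real.cos_pi_div_four, Real.sin_pi_div_four]
  have h2 : (0 : ℝ) < √2 := by positivity
  have h3 : b + 1 ≠ 0 := by linarith
  have h4 : √2 / 2 + b * (√2 / 2) ≠ 0 := by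
    have : √2 / 2 + b * (√2 / 2) = (b + 1) * (√2 / 2) := by ring
    rw [this]; positivity
  rw [div_eq_div_iff h4 h3]
  ring

/-- solution on the third zone -/
noncomputable def wIII (y k s : ℝ) : ℝ := y + 2 / LL * Real.log (1 + k * (s - s2))
/-- its derivative -/
noncomputable def dIII (k s : ℝ) : ℝ := 2 / LL * (k / (1 + k * (s - s2)))

theorem arcIII (lam : ℝ) (h1 : ∀ s ∈ Icc s2 mm, 0 < 1 + k * (s - s2))
    (h2 : ∀ s ∈ Ioo s2 mm, 0 < wIII y k s) : Arc lam s2 mm CC MM HH (wIII y k) (dIII k) := by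
  have hL := LL_pos
  have c1 : Continuous fun s => 1 + k * (s - s2) := by fun_prop
  refine ⟨?_, ?_, h2, ∅, countable_empty, ?_⟩
  · exact continuousOn_const.add (continuousOn_const.mul
      (c1.continuousOn.log fun s hs => (h1 s hs).ne'))
  · exact continuousOn_const.mul (continuousOn_const.div c1.continuousOn
      fun s hs => (h1 s hs).ne')
  · intro s hs _
    have hd := h1 s (Ioo_subset_Icc_self hs)
    obtain ⟨e1, e2, e3⟩ := zIII hs
    have k1 : HasDerivAt (fun s => 1 + k * (s - s2)) k s := by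
      simpa using (((hasDerivAt_id s).sub_const s2).const_mul k).const_add 1
    constructor
    · exact (((k1.log hd.ne').const_mul (2 / LL)).const_add y)
    · have k2 := ((hasDerivAt_const s k).div k1 hd.ne').const_mul (2 / LL)
      refine k2.congr_deriv ?_
      rw [e1, e2, e3]
      unfold dIII
      field_simp
      ring

end Pool.Agent.X150.QE
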